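import Mathlib

/-!
Basic facts on the exponential `E x = exp (2 pi i x)`.
-/

namespace Pool.Agent.H32.Nk

open Finset Complex

/-- `E x = exp (2 π i x)` -/
noncomputable def E (x : ℝ) : ℂ := Complex.exp (((2 * Real.pi * x : ℝ) : ℂ) * Complex.I)

lemma E_zero : E 0 = 1 := by simp [E]

lemma E_add (x y : ℝ) : E (x + y) = E x * E y := by
  unfold E
  rw [← Complex.exp_add]
  congr 1
  push_cast
  ring

lemma E_neg (x : ℝ) : E (-x) = (starRingEnd ℂ) (E x) := by
  unfold E
  rw [← Complex.exp_conj, map_mul, Complex.conj_ofReal, Complex.conj_I]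
  congr 1
  push_cast
  ring

lemma norm_E (x : ℝ) : ‖E x‖ = 1 := by
  unfold E
  exact Complex.norm_exp_ofReal_mul_I _

lemma E_ne_zero (x : ℝ) : E x ≠ 0 := by
  intro h
  have := norm_E x
  rw [h, norm_zero] at this
  exact zero_ne_one this

lemma E_int (n : ℤ) : E n = 1 := by
  unfold E
  rw [Complex.exp_eq_one_iff]
  refine ⟨n, ?_⟩
  push_cast
  ring

lemma E_nat (n : ℕ) : E n = 1 := by
  have := E_int n
  exact_mod_cast this

lemma E_add_int (x : ℝ) (n : ℤ) : E (x + n) = E x := by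
  rw [E_add, E_int, mul_one]

lemma E_sub_int (x : ℝ) (n : ℤ) : E (x - n) = E x := by
  have h := E_add_int (x - n) n
  rw [sub_add_cancel] at h
  exact h.symm

lemma E_sub (x y : ℝ) : E (x - y) * E y = E x := by
  rw [← E_add, sub_add_cancel]

lemma E_nat_mul (n : ℕ) (x : ℝ) : E (n * x) = E x ^ n := by
  unfold E
  rw [← Complex.exp_nat_mul]
  congr 1
  push_cast
  ring

lemma E_sum {ι : Type*} (s : Finset ι) (f : ι → ℝ) : E (∑ i ∈ s, f i) = ∏ i ∈ s, E (f i) := by
  classical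
  induction s using Finset.induction_on with
  | empty => simp [E_zero]
  | insert a s ha ih => rw [sum_insert ha, prod_insert ha, E_add, ih]

/-- `‖E x - 1‖ = 2 |sin (π x)|` -/
lemma norm_E_sub_one (x : ℝ) : ‖E x - 1‖ = 2 * |Real.sin (Real.pi * x)| := by
  unfold E
  have h := Complex.norm_exp_I_mul_ofReal_sub_one (2 * Real.pi * x)
  rw [mul_comm] at h
  rw [h]
  rw [Real.norm_eq_abs, abs_mul, abs_of_pos (by norm_num : (0:ℝ) < 2)]
  congr 3
  ring

lemma norm_E_sub_one_ge {x : ℝ} (hx : |x| ≤ 1 / 2) : 4 * |x| ≤ ‖E x - 1‖ := by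
  rw [norm_E_sub_one]
  have hpi := Real.pi_pos
  have h1 : |Real.sin (Real.pi * x)| = Real.sin (Real.pi * |x|) := by
    rcases le_total 0 x with h | h
    · rw [abs_of_nonneg h]
      rw [abs_of_nonneg]
      rw [abs_of_nonneg h] at hx
      exact Real.sin_nonneg_of_nonneg_of_le_pi (by positivity) (by nlinarith)
    · rw [abs_of_nonpos h]
      rw [abs_of_nonpos h] at hx
      have : Real.pi * -x = -(Real.pi * x) := by ring
      rw [this, Real.sin_neg, abs_of_nonpos]
      have h2 : 0 ≤ Real.sin (Real.pi * -x) :=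
        Real.sin_nonneg_of_nonneg_of_le_pi (by nlinarith) (by nlinarith)
      rw [this, Real.sin_neg] at h2
      linarith
  rw [h1]
  have h2 := Real.mul_le_sin (x := Real.pi * |x|) (by positivity) (by nlinarith [abs_nonneg x])
  have h3 : 2 / Real.pi * (Real.pi * |x|) = 2 * |x| := by field_simp
  rw [h3] at h2
  linarith

lemma norm_E_sub_one_le (x : ℝ) : ‖E x - 1‖ ≤ 2 * Real.pi * |x| := by
  rw [norm_E_sub_one]
  have := Real.abs_sin_le_abs (x := Real.pi * x)
  rw [abs_mul, abs_of_pos Real.pi_pos] at this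
  linarith

lemma norm_E_sub_E (x y : ℝ) : ‖E x - E y‖ = ‖E (x - y) - 1‖ := by
  have : E x - E y = (E (x - y) - 1) * E y := by
    rw [sub_mul, E_sub, one_mul]
  rw [this, norm_mul, norm_E, mul_one]

/-- geometric sum bound -/
lemma norm_geom_le {x : ℝ} (hx0 : x ≠ 0) (hx : |x| ≤ 1 / 2) (M : ℕ) :
    ‖∑ m ∈ range M, E (m * x)‖ ≤ 1 / (2 * |x|) := by
  have hxpos : 0 < |x| := abs_pos.mpr hx0
  have h1 := norm_E_sub_one_ge hx
  have hne : E x ≠ 1 := by
    intro h
    rw [h, sub_self, norm_zero] at h1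
    linarith
  have h2 : ∑ m ∈ range M, E (m * x) = (E x ^ M - 1) / (E x - 1) := by
    rw [← geom_sum_eq hne]
    refine sum_congr rfl fun m _ => ?_
    rw [E_nat_mul]
  rw [h2, norm_div]
  have h3 : ‖E x ^ M - 1‖ ≤ 2 := by
    calc ‖E x ^ M - 1‖ ≤ ‖E x ^ M‖ + ‖(1 : ℂ)‖ := norm_sub_le _ _
      _ = 2 := by rw [norm_pow, norm_E, one_pow, norm_one]; norm_num
  rw [div_le_div_iff₀ (by linarith) (by linarith)]
  nlinarith [norm_nonneg (E x - 1)]

/-- complete sums vanish -/
lemma sum_complete {N : ℕ} (hN : 0 < N) (x : ℤ) (hx : ¬ (N : ℤ) ∣ x) :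
    ∑ b ∈ range N, E (b * (x / N : ℝ)) = 0 := by
  have hN' : (N : ℝ) ≠ 0 := by positivity
  have hne : E (x / N : ℝ) ≠ 1 := by
    intro h
    apply hx
    unfold E at h
    rw [Complex.exp_eq_one_iff] at h
    obtain ⟨n, hn⟩ := h
    have h2 : ((2 * Real.pi * (x / N : ℝ) : ℝ) : ℂ) = ((n * (2 * Real.pi) : ℝ) : ℂ) := by
      have hI : Complex.I ≠ 0 := Complex.I_ne_zero
      apply mul_right_cancel₀ hI
      rw [hn]
      push_cast
      ring
    have h3 : (2 * Real.pi * (x / N : ℝ)) = (n * (2 * Real.pi)) := by exact_mod_cast h2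
    have hpi := Real.pi_pos
    have h4 : (x : ℝ) = N * n := by
      have h5 : (x / N : ℝ) = n := by
        have : (2 * Real.pi) ≠ 0 := by positivity
        apply mul_left_cancel₀ this
        rw [h3]; ring
      rw [div_eq_iff hN'] at h5
      rw [h5]; ring
    exact ⟨n, by exact_mod_cast h4⟩
  have h2 : ∑ b ∈ range N, E (b * (x / N : ℝ)) = (E (x / N : ℝ) ^ N - 1) / (E (x / N : ℝ) - 1) := by
    rw [← geom_sum_eq hne]
    refine sum_congr rfl fun m _ => ?_
    rw [E_nat_mul]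
  rw [h2, ← E_nat_mul]
  have h3 : (N : ℝ) * (x / N : ℝ) = x := by field_simp
  rw [h3, E_int, sub_self, zero_div]

end Pool.Agent.H32.Nk
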