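import Pool.Agent.H32.Nk.SSum

/-!
Sums of products of periodic functions over complete residue systems, and representation of
products of exponential sums.
-/

namespace Pool.Agent.H32.Nk

open Finset Complex

lemma sum_range_mul_add {α : Type*} [AddCommMonoid α] (f : ℕ → α) (J W : ℕ) :
    ∑ b ∈ range (J * W), f b = ∑ j ∈ range J, ∑ i ∈ range W, f (j * W + i) := by
  induction J with
  | zero => simp
  | succ J ih => rw [Nat.succ_mul, sum_range_add, ih, sum_range_succ]

/-- a periodic function summed along an arithmetic progression with coprime difference -/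
lemma sum_periodic {p : ℕ} (hp : p.Prime) {F : ℤ → ℝ} (hF : ∀ v : ℤ, F (v + p) = F v) {W : ℤ}
    (hW : ¬ (p : ℤ) ∣ W) (x : ℤ) :
    ∑ j ∈ range p, F (x + j * W) = ∑ c ∈ range p, F c := by
  have : NeZero p := ⟨hp.ne_zero⟩
  have : Fact p.Prime := ⟨hp⟩
  have hF' : ∀ (v c : ℤ), F (v + p * c) = F v := by
    intro v c
    induction c using Int.induction_on with
    | zero => simp
    | succ n ih =>
      have : v + (p : ℤ) * (n + 1) = (v + p * n) + p := by ring
      rw [this, hF, ih]
    | pred n ih =>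
      have : F (v + (p : ℤ) * (-n - 1)) = F ((v + (p : ℤ) * (-n - 1)) + p) := (hF _).symm
      rw [this, show (v + (p : ℤ) * (-n - 1)) + p = v + p * (-n) by ring, ih]
  have hmod : ∀ v v' : ℤ, ((v : ZMod p) = (v' : ZMod p)) → F v = F v' := by
    intro v v' h
    rw [ZMod.intCast_eq_intCast_iff_dvd_sub] at h
    obtain ⟨c, hc⟩ := h
    have : v' = v + p * c := by linarith
    rw [this, hF']
  -- both are sums over ZMod p
  have hval : ∀ g : ZMod p → ℝ, ∑ j ∈ range p, g (j : ZMod p) = ∑ a : ZMod p, g a := by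
    intro g
    refine sum_nbij' (fun j => (j : ZMod p)) (fun a => a.val) ?_ ?_ ?_ ?_ ?_
    · intro a _; exact mem_univ _
    · intro a _; exact mem_range.mpr (ZMod.val_lt a)
    · intro a ha; exact ZMod.val_cast_of_lt (mem_range.mp ha)
    · intro a _; exact ZMod.natCast_zmod_val a
    · intro a _; rfl
  have h1 : ∑ c ∈ range p, F c = ∑ a : ZMod p, F (a.val : ℤ) := by
    rw [← hval (fun a => F (a.val : ℤ))]
    refine sum_congr rfl fun j _ => ?_
    apply hmod
    simp
  have h2 : ∑ j ∈ range p, F (x + j * W) = ∑ a : ZMod p, F (((x : ZMod p) + a * W).val : ℤ) := by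
    rw [← hval (fun a => F (((x : ZMod p) + a * W).val : ℤ))]
    refine sum_congr rfl fun j _ => ?_
    apply hmod
    simp
  rw [h1, h2]
  have hWu : (W : ZMod p) ≠ 0 := by
    intro h
    exact hW ((ZMod.intCast_zmod_eq_zero_iff_dvd W p).mp h)
  refine Fintype.sum_bijective (fun a : ZMod p => (x : ZMod p) + a * W) ?_ _ _ ?_
  · constructor
    · intro a b hab
      have : a * (W : ZMod p) = b * W := by simpa using hab
      exact mul_right_cancel₀ hWu this
    · intro b
      exact ⟨(b - x) * (W : ZMod p)⁻¹, by field_simp; ring⟩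
  · intro a
    rfl

/-- CRT: the sum of a product of periodic functions over a complete residue system. -/
lemma sum_crt (T : Finset ℕ) (hT : ∀ p ∈ T, p.Prime) (F : ℕ → ℤ → ℝ)
    (hF : ∀ p ∈ T, ∀ v : ℤ, F p (v + p) = F p v) (A : ℤ) :
    ∑ i ∈ range (∏ p ∈ T, p), ∏ p ∈ T, F p (A + i) = ∏ p ∈ T, ∑ c ∈ range p, F p c := by
  classical
  induction T using Finset.induction_on generalizing A with
  | empty => simp
  | insert q T hq ih =>
    rw [prod_insert hq, prod_insert hq, sum_range_mul_add]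
    have hqp : q.Prime := hT q (mem_insert_self _ _)
    have hTp : ∀ p ∈ T, p.Prime := fun p hp => hT p (mem_insert_of_mem hp)
    set W := ∏ p ∈ T, p with hW
    have hWq : ¬ (q : ℤ) ∣ (W : ℤ) := by
      intro h
      have h' : q ∣ W := by exact_mod_cast h
      rw [hW] at h'
      obtain ⟨p, hp, hqp'⟩ := (hqp.prime.dvd_finsetProd_iff _).mp h'
      have := (Nat.prime_dvd_prime_iff_eq hqp (hTp p hp)).mp hqp'
      exact hq (this ▸ hp)
    -- periodicity of the product over T
    have hper : ∀ p ∈ T, ∀ (v : ℤ) (c : ℕ), F p (v + (c : ℤ) * W) = F p v := by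
      intro p hp v c
      obtain ⟨d, hd⟩ : p ∣ W := dvd_prod_of_mem _ hp
      have : ∀ n : ℕ, F p (v + (n : ℤ) * p) = F p v := by
        intro n
        induction n with
        | zero => simp
        | succ n ihn =>
          have : v + ((n + 1 : ℕ) : ℤ) * p = (v + n * p) + p := by push_cast; ring
          rw [this, hF p (mem_insert_of_mem hp), ihn]
      have h2 : v + (c : ℤ) * W = v + ((c * d : ℕ) : ℤ) * p := by
        rw [hd]; push_cast; ring
      rw [h2, this]
    have h1 : ∀ j ∈ range q, ∀ i ∈ range W,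
        ∏ p ∈ insert q T, F p (A + ((j * W + i : ℕ) : ℤ))
        = F q ((A + i) + j * W) * ∏ p ∈ T, F p (A + i) := by
      intro j _ i _
      rw [prod_insert hq]
      congr 1
      · congr 1; push_cast; ring
      · refine prod_congr rfl fun p hp => ?_
        have : A + ((j * W + i : ℕ) : ℤ) = (A + i) + (j : ℤ) * W := by push_cast; ring
        rw [this, hper p hp]
    rw [sum_congr rfl fun j hj => sum_congr rfl fun i hi => h1 j hj i hi, sum_comm]
    have h2 : ∀ i ∈ range W, ∑ j ∈ range q, F q ((A + i) + j * W) * ∏ p ∈ T, F p (A + i)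
        = (∑ c ∈ range q, F q c) * ∏ p ∈ T, F p (A + i) := by
      intro i _
      rw [← sum_mul, sum_periodic hqp (hF q (mem_insert_self _ _)) hWq]
    rw [sum_congr rfl h2, ← mul_sum, ih hTp (fun p hp => hF p (mem_insert_of_mem hp))]

/-- `G` is a finite sum of exponentials `b ↦ e(b x / N)` with all `x ∈ X`. -/
def Rep (N : ℕ) (X : Set ℤ) (G : ℕ → ℂ) : Prop :=
  ∃ (s : Finset (ℕ × ℤ)), (∀ i ∈ s, i.2 ∈ X) ∧ ∀ b : ℕ, G b = ∑ i ∈ s, E (b * (i.2 / N : ℝ))

/-- the same with an arbitrary index type -/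
def Rep' (N : ℕ) (X : Set ℤ) (G : ℕ → ℂ) : Prop :=
  ∃ (ι : Type) (s : Finset ι) (x : ι → ℤ), (∀ i ∈ s, x i ∈ X) ∧
    ∀ b : ℕ, G b = ∑ i ∈ s, E (b * (x i / N : ℝ))

lemma Rep'.mul {N : ℕ} {X Y Z : Set ℤ} {G H : ℕ → ℂ} (hG : Rep' N X G) (hH : Rep' N Y H)
    (hZ : ∀ x ∈ X, ∀ y ∈ Y, x + y ∈ Z) : Rep' N Z (fun b => G b * H b) := by
  obtain ⟨ι, s, x, hx, hGx⟩ := hG
  obtain ⟨κ, t, y, hy, hHy⟩ := hH
  refine ⟨ι × κ, s ×ˢ t, fun i => x i.1 + y i.2, ?_, ?_⟩
  · intro i hi
    rw [mem_product] at hi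
    exact hZ _ (hx _ hi.1) _ (hy _ hi.2)
  · intro b
    beta_reduce
    rw [hGx, hHy, sum_mul_sum, sum_product]
    refine sum_congr rfl fun i _ => sum_congr rfl fun j _ => ?_
    rw [← E_add]
    congr 1
    push_cast
    ring

lemma Rep'.exists_dvd {N : ℕ} (hN : 0 < N) {X : Set ℤ} {G : ℕ → ℂ} (hG : Rep' N X G)
    (hne : ∑ b ∈ range N, G b ≠ 0) : ∃ x ∈ X, (N : ℤ) ∣ x := by
  by_contra hcon
  push Not at hcon
  obtain ⟨ι, s, x, hx, hGx⟩ := hG
  apply hne
  rw [sum_congr rfl fun b _ => hGx b, sum_comm]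
  refine sum_eq_zero fun i hi => ?_
  exact sum_complete hN _ (hcon _ (hx i hi))

lemma rep_const (N : ℕ) (x : ℤ) : Rep' N {x} (fun b => E (b * (x / N : ℝ))) :=
  ⟨Unit, univ, fun _ => x, by simp, by intro b; simp⟩

lemma rep_range (N M : ℕ) : Rep' N {x | ∃ m : ℕ, m < M ∧ x = m}
    (fun b => ∑ m ∈ range M, E (m * (b / N : ℝ))) := by
  refine ⟨ℕ, range M, fun m => m, ?_, ?_⟩
  · intro m hm
    exact ⟨m, mem_range.mp hm, rfl⟩
  · intro b
    refine sum_congr rfl fun m _ => ?_
    congr 1
    push_cast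
    ring

/-- product over a set of primes of the short sums -/
lemma rep_prod (N L : ℕ) (R : Finset ℕ) (t : ℕ → ℤ) (hR : ∀ p ∈ R, 0 < p ∧ p ∣ N) (hN : 0 < N) :
    Rep' N {x | ∃ a : ℕ → ℕ, (∀ p ∈ R, a p < L) ∧ x = ∑ p ∈ R, t p * a p * (N / p : ℕ)}
      (fun b => ∏ p ∈ R, SS p L (b * t p)) := by
  classical
  induction R using Finset.induction_on with
  | empty =>
    refine ⟨Unit, univ, fun _ => 0, ?_, ?_⟩
    · intro _ _
      exact ⟨fun _ => 0, by simp, by simp⟩
    · intro b
      simp [E_zero]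
  | insert q R hq ih =>
    have ih' := ih (fun p hp => hR p (mem_insert_of_mem hp))
    obtain ⟨hq0, hqN⟩ := hR q (mem_insert_self _ _)
    have hq1 : Rep' N {x | ∃ a : ℕ, a < L ∧ x = t q * a * (N / q : ℕ)}
        (fun b => SS q L (b * t q)) := by
      refine ⟨ℕ, range L, fun a => t q * a * (N / q : ℕ), ?_, ?_⟩
      · intro a ha
        exact ⟨a, mem_range.mp ha, rfl⟩
      · intro b
        unfold SS
        refine sum_congr rfl fun a _ => ?_
        congr 1
        have hNr : (N : ℝ) ≠ 0 := by positivity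
        have hqr : (q : ℝ) ≠ 0 := by positivity
        have : ((N / q : ℕ) : ℝ) = (N : ℝ) / q := Nat.cast_div hqN hqr
        simp only [Int.cast_mul, Int.cast_natCast]
        rw [this]
        field_simp
    have := hq1.mul ih' (Z := {x | ∃ a : ℕ → ℕ, (∀ p ∈ insert q R, a p < L) ∧
      x = ∑ p ∈ insert q R, t p * a p * (N / p : ℕ)}) ?_
    · obtain ⟨ι, s, x, hx, hGx⟩ := this
      refine ⟨ι, s, x, hx, ?_⟩
      intro b
      beta_reduce
      rw [prod_insert hq]
      exact hGx b
    · rintro x ⟨a, ha, rfl⟩ y ⟨a', ha', rfl⟩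
      refine ⟨Function.update a' q a, ?_, ?_⟩
      · intro p hp
        rcases mem_insert.mp hp with rfl | hp
        · simpa using ha
        · have : p ≠ q := fun h => hq (h ▸ hp)
          rw [Function.update_of_ne this]
          exact ha' p hp
      · rw [sum_insert hq]
        congr 1
        · simp
        · refine sum_congr rfl fun p hp => ?_
          have : p ≠ q := fun h => hq (h ▸ hp)
          rw [Function.update_of_ne this]

end Pool.Agent.H32.Nk
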