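import Pool.Agent.H32.Nk.Crt

/-!
The main counting lemma.
-/

namespace Pool.Agent.H32.Nk

open Finset Complex

/-- the saving factor -/
noncomputable def kap : ℝ := 1 - 1 / 30000

lemma kap_pos : 0 < kap := by unfold kap; norm_num
lemma kap_le_one : kap ≤ 1 := by unfold kap; norm_num
lemma kap_inv_le : (1 : ℝ) / kap ≤ 2 := by unfold kap; norm_num

/-- saving for the relevant range of parameters -/
lemma SS_sq_le {p L k : ℕ} (hp : 0 < p) (hpk : p < 2 * k) (hL : k ≤ 20 * L) (hk : 400 ≤ k)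
    {v : ℤ} (hv : ¬ (p : ℤ) ∣ v) : ‖SS p L v‖ ^ 2 ≤ (L : ℝ) ^ 2 * kap := by
  have hL4 : 4 ≤ L := by omega
  have hc : (1 / 200 : ℝ) * p ≤ ((L / 4 : ℕ) : ℝ) := by
    have h1 : p ≤ 200 * (L / 4) := by omega
    have h2 : (p : ℝ) ≤ 200 * ((L / 4 : ℕ) : ℝ) := by exact_mod_cast h1
    linarith
  have h := norm_SS_saving hp hv hL4 (c := 1 / 200) (by norm_num) (by norm_num) hc
  have hLnn : (0 : ℝ) ≤ L := by positivity
  have h1 : ‖SS p L v‖ ^ 2 ≤ ((L : ℝ) * (1 - 3 / 2 * (1 / 200) ^ 2)) ^ 2 := by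
    gcongr
  refine h1.trans ?_
  rw [mul_pow]
  have : (1 - 3 / 2 * (1 / 200 : ℝ) ^ 2) ^ 2 ≤ kap := by unfold kap; norm_num
  gcongr

/-- products of distinct primes `> k` dividing `b` -/
lemma pow_card_le {k : ℕ} (U : Finset ℕ) (hU : ∀ p ∈ U, p.Prime) (hUk : ∀ p ∈ U, k < p) {b : ℕ}
    (hb : 0 < b) : k ^ (U.filter (fun p => p ∣ b)).card ≤ b := by
  have h1 : ∏ p ∈ U.filter (fun p => p ∣ b), p ∣ b := by
    apply Finset.prod_primes_dvd
    · intro p hp
      exact (hU p (mem_filter.mp hp).1).prime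
    · intro p hp
      exact (mem_filter.mp hp).2
  have h2 : ∏ p ∈ U.filter (fun p => p ∣ b), k ≤ ∏ p ∈ U.filter (fun p => p ∣ b), p :=
    prod_le_prod' fun p hp => (hUk p (mem_filter.mp hp).1).le
  rw [prod_const] at h2
  exact h2.trans (Nat.le_of_dvd hb h1)

lemma kap_pow_le {k r τ z j : ℕ} (hk : 2 ≤ k) (hz : z ≤ r - τ) (hτ : 3 * τ ≤ r)
    (h : k ^ z < (j + 1) * (2 * k) ^ τ) :
    kap ^ (r - τ - z) ≤ kap ^ (r - 3 * τ) * (j + 1) := by
  have h0 := kap_pos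
  have h1 := kap_le_one
  by_cases hzt : z ≤ 2 * τ
  · have h2 : kap ^ (r - τ - z) ≤ kap ^ (r - 3 * τ) :=
      pow_le_pow_of_le_one h0.le h1 (by omega)
    have h3 : 0 ≤ kap ^ (r - 3 * τ) := by positivity
    have h4 : (0 : ℝ) ≤ j := by positivity
    nlinarith
  · push Not at hzt
    have h2 : r - 3 * τ = (r - τ - z) + (z - 2 * τ) := by omega
    rw [h2, pow_add]
    have h3 : 1 ≤ kap ^ (z - 2 * τ) * (j + 1) := by
      have h4 : k ^ (z - 2 * τ) < j + 1 := by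
        have h5 : (2 * k) ^ τ ≤ k ^ (2 * τ) := by
          rw [pow_mul]
          exact Nat.pow_le_pow_left (by nlinarith) τ
        have h6 : k ^ z < (j + 1) * k ^ (2 * τ) :=
          lt_of_lt_of_le h (Nat.mul_le_mul_left _ h5)
        have h7 : k ^ z = k ^ (z - 2 * τ) * k ^ (2 * τ) := by
          rw [← pow_add]; congr 1; omega
        rw [h7] at h6
        exact lt_of_mul_lt_mul_right h6 (Nat.zero_le _)
      have h5 : (1 / kap) ^ (z - 2 * τ) ≤ (k : ℝ) ^ (z - 2 * τ) := by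
        have : (1 : ℝ) / kap ≤ k := kap_inv_le.trans (by exact_mod_cast hk)
        gcongr
      have h6 : (k : ℝ) ^ (z - 2 * τ) ≤ j + 1 := by exact_mod_cast h4.le
      have h7 : (1 / kap) ^ (z - 2 * τ) ≤ j + 1 := h5.trans h6
      rw [one_div, inv_pow] at h7
      have h8 : 0 < kap ^ (z - 2 * τ) := by positivity
      have := (inv_le_iff_one_le_mul₀' h8).mp h7
      exact this
    have h9 : 0 ≤ kap ^ (r - τ - z) := by positivity
    calc kap ^ (r - τ - z) = kap ^ (r - τ - z) * 1 := by ring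
      _ ≤ kap ^ (r - τ - z) * (kap ^ (z - 2 * τ) * (j + 1)) := by gcongr
      _ = _ := by ring

section main

variable (R T : Finset ℕ) (k L M : ℕ) (t : ℕ → ℤ)

/-- the absolute value of the summand -/
noncomputable def AA (b : ℕ) : ℝ :=
  ‖∑ m ∈ range M, E (m * (b / (∏ p ∈ R, p : ℕ) : ℝ))‖ ^ 3 *
    ∏ p ∈ R, ‖SS p L (b * t p)‖ ^ 2

lemma AA_nonneg (b : ℕ) : 0 ≤ AA R L M t b := by
  unfold AA
  have : 0 ≤ ∏ p ∈ R, ‖SS p L (b * t p)‖ ^ 2 := prod_nonneg fun _ _ => by positivity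
  positivity

/-- the weights -/
noncomputable def ww (j : ℕ) : ℝ := if j = 0 then 1 else 1 / (4 * (j : ℝ) ^ 2)

lemma ww_nonneg (j : ℕ) : 0 ≤ ww j := by unfold ww; split_ifs <;> positivity

lemma sum_ww (n : ℕ) : ∑ j ∈ range n, ww j ≤ 3 / 2 := by
  rcases Nat.eq_zero_or_pos n with h | h
  · rw [h]; simp; norm_num
  · have h1 : ∑ j ∈ range n, ww j = ww 0 + ∑ j ∈ Ioo 0 n, ww j := by
      have : range n = insert 0 (Ioo 0 n) := by
        ext x
        simp only [mem_range, mem_insert, mem_Ioo]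
        omega
      rw [this, sum_insert (by simp)]
    rw [h1]
    have h2 : ∑ j ∈ Ioo 0 n, ww j = 1 / 4 * ∑ j ∈ Ioo 0 n, ((j : ℝ) ^ 2)⁻¹ := by
      rw [mul_sum]
      refine sum_congr rfl fun j hj => ?_
      rw [mem_Ioo] at hj
      unfold ww
      rw [if_neg (by omega)]
      rw [one_div, mul_inv, one_div]
    have h3 := sum_Ioo_inv_sq_le (α := ℝ) 0 n
    rw [h2]
    have h4 : ww 0 = 1 := by simp [ww]
    rw [h4]
    have h5 : (2 : ℝ) / (((0 : ℕ) : ℝ) + 1) = 2 := by norm_num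
    rw [h5] at h3
    linarith

variable {R T k L M t}

lemma AA_block (hTR : T ⊆ R) (hR : ∀ p ∈ R, p.Prime) (hRk : ∀ p ∈ R, k < p ∧ p < 2 * k)
    (hk : 400 ≤ k) (hL : k ≤ 20 * L) (hMW : ∏ p ∈ R, p ≤ M * ∏ p ∈ T, p)
    (ht : ∀ p ∈ R, ¬ (p : ℤ) ∣ t p) (hcard : 3 * T.card ≤ R.card)
    {j i : ℕ} (hi : i < ∏ p ∈ T, p) (hb1 : 1 ≤ j * (∏ p ∈ T, p) + i)
    (hb2 : 2 * (j * (∏ p ∈ T, p) + i) ≤ ∏ p ∈ R, p) :
    AA R L M t (j * (∏ p ∈ T, p) + i) ≤
      ww j * ((M : ℝ) ^ 3 * (L : ℝ) ^ (2 * (R.card - T.card)) * kap ^ (R.card - 3 * T.card)) *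
      ∏ p ∈ T, ‖SS p L (((j * (∏ p ∈ T, p) : ℕ) + i : ℤ) * t p)‖ ^ 2 := by
  classical
  set W := ∏ p ∈ T, p with hW
  set N := ∏ p ∈ R, p with hN
  set b := j * W + i with hb
  have hWpos : 0 < W := prod_pos fun p hp => (hR p (hTR hp)).pos
  have hNpos : 0 < N := prod_pos fun p hp => (hR p hp).pos
  have hNr : (0 : ℝ) < N := by exact_mod_cast hNpos
  have hbr : (0 : ℝ) < b := by exact_mod_cast hb1
  -- the linear sum
  set s := ‖∑ m ∈ range M, E (m * (b / N : ℝ))‖ with hs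
  have hs0 : 0 ≤ s := norm_nonneg _
  have hs1 : s ≤ M := by
    refine (norm_sum_le _ _).trans ?_
    simp [norm_E]
  have hs2 : s ≤ N / (2 * b) := by
    have hx : |(b / N : ℝ)| ≤ 1 / 2 := by
      rw [abs_of_pos (by positivity), div_le_div_iff₀ hNr (by norm_num)]
      have : (2 * b : ℝ) ≤ N := by exact_mod_cast hb2
      linarith
    have := norm_geom_le (x := (b / N : ℝ)) (by positivity) hx M
    rw [abs_of_pos (by positivity)] at this
    refine this.trans (le_of_eq ?_)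
    field_simp
  have hlin : s ^ 3 * (j + 1) ≤ ww j * (M : ℝ) ^ 3 := by
    by_cases hj : j = 0
    · rw [hj]
      simp only [ww, if_true, Nat.cast_zero, zero_add, mul_one, one_mul]
      gcongr
    · have hj' : 1 ≤ j := Nat.one_le_iff_ne_zero.mpr hj
      have hjr : (1 : ℝ) ≤ j := by exact_mod_cast hj'
      have hs3 : s ≤ M / (2 * j) := by
        refine hs2.trans ?_
        rw [div_le_div_iff₀ (by positivity) (by positivity)]
        have h1 : (N : ℝ) ≤ M * W := by exact_mod_cast hMW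
        have h2 : (j * W : ℝ) ≤ b := by
          have : j * W ≤ b := by omega
          exact_mod_cast this
        have hM0 : (0 : ℝ) ≤ M := by positivity
        calc (N : ℝ) * (2 * j) ≤ (M * W) * (2 * j) := by gcongr
          _ = M * (2 * (j * W)) := by ring
          _ ≤ M * (2 * b) := by gcongr
      have hs4 : s ^ 3 ≤ (M / (2 * j)) ^ 3 := by gcongr
      unfold ww
      rw [if_neg hj]
      calc s ^ 3 * (j + 1) ≤ (M / (2 * j)) ^ 3 * (2 * j) := by
            gcongr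
            linarith
        _ = 1 / (4 * (j : ℝ) ^ 2) * (M : ℝ) ^ 3 := by field_simp; ring
  -- the product outside T
  set z := ((R \ T).filter (fun p => p ∣ b)).card with hz
  have hprod : ∏ p ∈ R \ T, ‖SS p L (b * t p)‖ ^ 2
      ≤ (L : ℝ) ^ (2 * (R.card - T.card)) * kap ^ (R.card - T.card - z) := by
    have h1 : ∀ p ∈ R \ T, ‖SS p L (b * t p)‖ ^ 2
        ≤ (L : ℝ) ^ 2 * (if p ∣ b then 1 else kap) := by
      intro p hp
      have hpR : p ∈ R := (mem_sdiff.mp hp).1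
      split_ifs with hpb
      · rw [mul_one]
        have := norm_SS_le p L (b * t p)
        gcongr
      · refine SS_sq_le (hR p hpR).pos (hRk p hpR).2 hL hk ?_
        intro hdvd
        have hpI : Prime (p : ℤ) := Nat.prime_iff_prime_int.mp (hR p hpR)
        rcases hpI.dvd_or_dvd hdvd with h | h
        · exact hpb (by exact_mod_cast h)
        · exact ht p hpR h
    refine (prod_le_prod (fun _ _ => by positivity) h1).trans (le_of_eq ?_)
    rw [prod_mul_distrib, prod_const, ← pow_mul, card_sdiff_of_subset hTR]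
    congr 1
    rw [prod_ite, prod_const_one, one_mul, prod_const]
    congr 1
    have := card_filter_add_card_filter_not (s := R \ T) (fun p => p ∣ b)
    rw [card_sdiff_of_subset hTR] at this
    omega
  have hzle : z ≤ R.card - T.card := by
    rw [← card_sdiff_of_subset hTR]
    exact card_filter_le _ _
  have hkz : k ^ z < (j + 1) * (2 * k) ^ T.card := by
    have h1 : k ^ z ≤ b := pow_card_le (R \ T) (fun p hp => hR p (mem_sdiff.mp hp).1)
      (fun p hp => (hRk p (mem_sdiff.mp hp).1).1) hb1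
    have h2 : b < (j + 1) * W := by rw [hb]; nlinarith
    have h3 : W ≤ (2 * k) ^ T.card := by
      rw [hW, ← prod_const]
      exact prod_le_prod' fun p hp => (hRk p (hTR hp)).2.le
    calc k ^ z ≤ b := h1
      _ < (j + 1) * W := h2
      _ ≤ (j + 1) * (2 * k) ^ T.card := Nat.mul_le_mul_left _ h3
  have hkap := kap_pow_le (by omega) hzle hcard hkz
  -- combine
  have hsplit : ∏ p ∈ R, ‖SS p L (b * t p)‖ ^ 2
      = (∏ p ∈ R \ T, ‖SS p L (b * t p)‖ ^ 2) * ∏ p ∈ T, ‖SS p L (b * t p)‖ ^ 2 :=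
    (prod_sdiff hTR).symm
  have hcast : ∀ p, (((j * W : ℕ) + i : ℤ) * t p) = ((b : ℕ) : ℤ) * t p := by
    intro p
    rw [hb]
    push_cast
    ring
  have hTnn : 0 ≤ ∏ p ∈ T, ‖SS p L (b * t p)‖ ^ 2 := prod_nonneg fun _ _ => by positivity
  have hRTnn : 0 ≤ ∏ p ∈ R \ T, ‖SS p L (b * t p)‖ ^ 2 := prod_nonneg fun _ _ => by positivity
  simp only [hcast]
  unfold AA
  rw [← hN, ← hs, hsplit, ← mul_assoc]
  refine mul_le_mul_of_nonneg_right ?_ hTnn
  have hLp : (0 : ℝ) ≤ (L : ℝ) ^ (2 * (R.card - T.card)) := by positivity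
  have hkp : (0 : ℝ) ≤ kap ^ (R.card - 3 * T.card) := by have := kap_pos; positivity
  calc s ^ 3 * ∏ p ∈ R \ T, ‖SS p L (b * t p)‖ ^ 2
      ≤ s ^ 3 * ((L : ℝ) ^ (2 * (R.card - T.card)) * kap ^ (R.card - T.card - z)) := by gcongr
    _ ≤ s ^ 3 * ((L : ℝ) ^ (2 * (R.card - T.card)) * (kap ^ (R.card - 3 * T.card) * (j + 1))) := by
        gcongr
    _ = (s ^ 3 * (j + 1)) * ((L : ℝ) ^ (2 * (R.card - T.card)) * kap ^ (R.card - 3 * T.card)) := by
        ring
    _ ≤ (ww j * (M : ℝ) ^ 3) * ((L : ℝ) ^ (2 * (R.card - T.card)) *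
          kap ^ (R.card - 3 * T.card)) := by gcongr
    _ = _ := by ring

lemma sum_AA (hTR : T ⊆ R) (hR : ∀ p ∈ R, p.Prime) (hRk : ∀ p ∈ R, k < p ∧ p < 2 * k)
    (hk : 400 ≤ k) (hL : k ≤ 20 * L) (hLp : ∀ p ∈ R, L ≤ p)
    (hMW : ∏ p ∈ R, p ≤ M * ∏ p ∈ T, p)
    (ht : ∀ p ∈ R, ¬ (p : ℤ) ∣ t p) (hcard : 3 * T.card ≤ R.card) :
    ∑ b ∈ Icc 1 ((∏ p ∈ R, p) / 2), AA R L M t b ≤
      3 / 2 * ((M : ℝ) ^ 3 * (L : ℝ) ^ (2 * R.card) *
        (40 ^ T.card * kap ^ (R.card - 3 * T.card))) := by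
  classical
  set W := ∏ p ∈ T, p with hW
  set N := ∏ p ∈ R, p with hN
  have hWpos : 0 < W := prod_pos fun p hp => (hR p (hTR hp)).pos
  have hNpos : 0 < N := prod_pos fun p hp => (hR p hp).pos
  set f : ℕ → ℝ := fun b => if 1 ≤ b ∧ 2 * b ≤ N then AA R L M t b else 0 with hf
  have hf0 : ∀ b, 0 ≤ f b := by
    intro b
    simp only [hf]
    split_ifs
    · exact AA_nonneg _ _ _ _ _
    · exact le_rfl
  have h1 : ∑ b ∈ Icc 1 (N / 2), AA R L M t b = ∑ b ∈ Icc 1 (N / 2), f b := by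
    refine sum_congr rfl fun b hb => ?_
    rw [mem_Icc] at hb
    simp only [hf]
    rw [if_pos ⟨hb.1, by omega⟩]
  have h2 : ∑ b ∈ Icc 1 (N / 2), f b ≤ ∑ b ∈ range (N * W), f b := by
    refine sum_le_sum_of_subset_of_nonneg ?_ fun b _ _ => hf0 b
    intro b hb
    rw [mem_Icc] at hb
    rw [mem_range]
    have : N ≤ N * W := Nat.le_mul_of_pos_right _ hWpos
    omega
  rw [h1]
  refine h2.trans ?_
  rw [sum_range_mul_add]
  set C := (M : ℝ) ^ 3 * (L : ℝ) ^ (2 * (R.card - T.card)) * kap ^ (R.card - 3 * T.card) with hC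
  have hC0 : 0 ≤ C := by have := kap_pos; positivity
  have h3 : ∀ j ∈ range N, ∑ i ∈ range W, f (j * W + i) ≤
      ww j * C * ∏ p ∈ T, ((p : ℝ) * L) := by
    intro j _
    have hcrt := sum_crt T (fun p hp => hR p (hTR hp))
      (fun p v => ‖SS p L (v * t p)‖ ^ 2)
      (fun p hp v => by
        show ‖SS p L ((v + p) * t p)‖ ^ 2 = _
        rw [SS_periodic p L (hR p (hTR hp)).pos]) ((j * W : ℕ) : ℤ)
    have hpars : ∏ p ∈ T, ∑ c ∈ range p, ‖SS p L ((c : ℤ) * t p)‖ ^ 2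
        = ∏ p ∈ T, ((p : ℝ) * L) :=
      prod_congr rfl fun p hp => parseval (hR p (hTR hp)) (hLp p (hTR hp)) (ht p (hTR hp))
    rw [hpars] at hcrt
    rw [← hcrt, mul_sum]
    refine sum_le_sum fun i hi => ?_
    rw [mem_range] at hi
    simp only [hf]
    split_ifs with hcond
    · exact AA_block hTR hR hRk hk hL hMW ht hcard hi hcond.1 hcond.2
    · have hw := ww_nonneg j
      have : 0 ≤ ∏ p ∈ T, ‖SS p L ((((j * W : ℕ) : ℤ) + i) * t p)‖ ^ 2 :=
        prod_nonneg fun _ _ => by positivity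
      positivity
  refine (sum_le_sum h3).trans ?_
  rw [← sum_mul, ← sum_mul]
  have h4 : ∏ p ∈ T, ((p : ℝ) * L) ≤ (40 * (L : ℝ) ^ 2) ^ T.card := by
    rw [← prod_const]
    refine prod_le_prod (fun _ _ => by positivity) fun p hp => ?_
    have h5 := (hRk p (hTR hp)).2
    have h6 : p ≤ 40 * L := by omega
    have h7 : (p : ℝ) ≤ 40 * L := by exact_mod_cast h6
    have hL0 : (0 : ℝ) ≤ L := by positivity
    nlinarith
  have h5 := sum_ww N
  have h6 : 0 ≤ ∑ j ∈ range N, ww j := sum_nonneg fun j _ => ww_nonneg j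
  have hTR' : T.card ≤ R.card := card_le_card hTR
  have h7 : (L : ℝ) ^ (2 * R.card) = (L : ℝ) ^ (2 * (R.card - T.card)) * ((L : ℝ) ^ 2) ^ T.card := by
    rw [← pow_mul, ← pow_add]
    congr 1
    omega
  calc (∑ j ∈ range N, ww j) * C * ∏ p ∈ T, ((p : ℝ) * L)
      ≤ 3 / 2 * C * (40 * (L : ℝ) ^ 2) ^ T.card := by gcongr
    _ = _ := by rw [h7, hC, mul_pow]; ring

lemma AA_symm {b : ℕ} (hR : ∀ p ∈ R, p.Prime) (hb : b ≤ ∏ p ∈ R, p) :
    AA R L M t ((∏ p ∈ R, p) - b) = AA R L M t b := by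
  set N := ∏ p ∈ R, p with hN
  have hNpos : 0 < N := prod_pos fun p hp => (hR p hp).pos
  have hNr : (N : ℝ) ≠ 0 := by positivity
  unfold AA
  rw [← hN]
  congr 1
  · congr 1
    have : ∑ m ∈ range M, E (m * (((N - b : ℕ) : ℝ) / N))
        = (starRingEnd ℂ) (∑ m ∈ range M, E (m * (b / N : ℝ))) := by
      rw [map_sum]
      refine sum_congr rfl fun m _ => ?_
      rw [← E_neg, Nat.cast_sub hb]
      have : (m : ℝ) * (((N : ℝ) - b) / N) = -(m * (b / N : ℝ)) + (m : ℤ) := by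
        push_cast
        field_simp
        ring
      rw [this, E_add_int]
    rw [this, Complex.norm_conj]
  · refine prod_congr rfl fun p hp => ?_
    congr 1
    obtain ⟨d, hd⟩ : p ∣ N := dvd_prod_of_mem _ hp
    have : (((N - b : ℕ) : ℤ)) * t p = -(b * t p) + p * (d * t p) := by
      rw [Nat.cast_sub hb, hd]
      push_cast
      ring
    rw [this, SS_add_mul p L (hR p hp).pos, norm_SS_neg]

theorem exists_m (hTR : T ⊆ R) (hR : ∀ p ∈ R, p.Prime) (hRk : ∀ p ∈ R, k < p ∧ p < 2 * k)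
    (hk : 400 ≤ k) (hL : k ≤ 20 * L) (hLp : ∀ p ∈ R, L ≤ p) (hM0 : 0 < M)
    (hMW : ∏ p ∈ R, p ≤ M * ∏ p ∈ T, p) (hcard : 3 * T.card ≤ R.card)
    (hbound : 3 * (40 ^ T.card * kap ^ (R.card - 3 * T.card)) < 1)
    (Q : ℕ) (hQ : ∀ p ∈ R, ¬ p ∣ Q) (m₀ : ℕ) :
    ∃ m : ℕ, m₀ ≤ m ∧ m ≤ m₀ + 3 * M ∧ ∀ p ∈ R, ∃ j : ℕ, j ≤ 2 * (L - 1) ∧ p ∣ m * Q + j := by
  classical
  set N := ∏ p ∈ R, p with hN
  have hNpos : 0 < N := prod_pos fun p hp => (hR p hp).pos
  have hNr : (N : ℝ) ≠ 0 := by positivity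
  have hL0 : 0 < L := by omega
  -- coprimality
  have hNp : ∀ p ∈ R, N = p * ∏ q ∈ R.erase p, q := fun p hp => (mul_prod_erase R _ hp).symm
  have hNdiv : ∀ p ∈ R, N / p = ∏ q ∈ R.erase p, q := fun p hp => by
    rw [hNp p hp]; exact Nat.mul_div_cancel_left _ (hR p hp).pos
  have hcop : ∀ p ∈ R, ¬ p ∣ Q * (N / p) := by
    intro p hp h
    rcases (hR p hp).dvd_mul.mp h with h | h
    · exact hQ p hp h
    · rw [hNdiv p hp] at h
      obtain ⟨q, hq, hpq⟩ := ((hR p hp).prime.dvd_finsetProd_iff _).mp h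
      have hqR := mem_of_mem_erase hq
      have := (Nat.prime_dvd_prime_iff_eq (hR p hp) (hR q hqR)).mp hpq
      exact (ne_of_mem_erase hq) this.symm
  have hex : ∀ p ∈ R, ∃ y : ℤ, ((Q * (N / p) : ℕ) : ℤ) * y ≡ 1 [ZMOD p] := by
    intro p hp
    exact Int.mod_coprime (((hR p hp).coprime_iff_not_dvd.mpr (hcop p hp)).symm)
  choose! t ht using hex
  have ht' : ∀ p ∈ R, ¬ (p : ℤ) ∣ t p := by
    intro p hp h
    have h1 := (ht p hp).dvd
    have h2 : (p : ℤ) ∣ ((Q * (N / p) : ℕ) : ℤ) * t p := Dvd.dvd.mul_left h _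
    have h3 : (p : ℤ) ∣ 1 := by
      have := dvd_add h1 h2
      simpa using this
    have h4 := (hR p hp).one_lt
    have := Int.le_of_dvd (by norm_num) h3
    omega
  -- the exponential sum
  set G : ℕ → ℂ := fun b => E (b * ((m₀ : ℤ) / N : ℝ)) *
    ((∑ m ∈ range M, E (m * (b / N : ℝ))) * ((∑ m ∈ range M, E (m * (b / N : ℝ))) *
      (∑ m ∈ range M, E (m * (b / N : ℝ))))) *
    ((∏ p ∈ R, SS p L (b * t p)) * (∏ p ∈ R, SS p L (b * t p))) with hG
  have hGn : ∀ b, ‖G b‖ = AA R L M t b := by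
    intro b
    simp only [hG, AA, norm_mul, norm_E, norm_prod, ← hN]
    rw [prod_pow]
    ring
  have hG0 : G 0 = ((M : ℝ) ^ 3 * (L : ℝ) ^ (2 * R.card) : ℝ) := by
    simp only [hG, Nat.cast_zero, zero_mul, zero_div, mul_zero, E_zero, SS_zero, sum_const,
      card_range, prod_const, nsmul_eq_mul, mul_one, one_mul]
    push_cast
    ring
  have hne : ∑ b ∈ range N, G b ≠ 0 := by
    intro hzero
    have h1 : range N = insert 0 (Ico 1 N) := by
      ext x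
      simp only [mem_range, mem_insert, mem_Ico]
      omega
    rw [h1, sum_insert (by simp)] at hzero
    have h2 : ‖G 0‖ ≤ ∑ b ∈ Ico 1 N, AA R L M t b := by
      have h3 : G 0 = -∑ b ∈ Ico 1 N, G b := eq_neg_of_add_eq_zero_left hzero
      rw [h3, norm_neg]
      refine (norm_sum_le _ _).trans (le_of_eq ?_)
      exact sum_congr rfl fun b _ => hGn b
    have h3 : ∑ b ∈ Ico 1 N, AA R L M t b ≤ 2 * ∑ b ∈ Icc 1 (N / 2), AA R L M t b := by
      have h4 : Ico 1 N ⊆ Icc 1 (N / 2) ∪ (Icc 1 (N / 2)).image (fun b => N - b) := by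
        intro b hb
        rw [mem_Ico] at hb
        rw [mem_union, mem_image]
        by_cases hb2 : 2 * b ≤ N
        · left
          rw [mem_Icc]
          omega
        · right
          refine ⟨N - b, ?_, ?_⟩
          · rw [mem_Icc]; omega
          · omega
      have h5 := sum_le_sum_of_subset_of_nonneg h4 (fun b _ _ => AA_nonneg R L M t b)
      refine h5.trans ?_
      have h6 := sum_union_inter (s₁ := Icc 1 (N / 2))
        (s₂ := (Icc 1 (N / 2)).image (fun b => N - b)) (f := fun b => AA R L M t b)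
      have h7 : 0 ≤ ∑ b ∈ Icc 1 (N / 2) ∩ (Icc 1 (N / 2)).image (fun b => N - b),
          AA R L M t b := sum_nonneg fun b _ => AA_nonneg R L M t b
      have h8 : ∑ b ∈ (Icc 1 (N / 2)).image (fun b => N - b), AA R L M t b
          = ∑ b ∈ Icc 1 (N / 2), AA R L M t b := by
        rw [sum_image]
        · refine sum_congr rfl fun b hb => ?_
          rw [mem_Icc] at hb
          exact AA_symm hR (by rw [← hN]; omega)
        · intro a ha b hb hab
          rw [mem_coe, mem_Icc] at ha hb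
          simp only at hab
          omega
      linarith
    have h4 := sum_AA hTR hR hRk hk hL hLp hMW ht' hcard
    rw [← hN] at h4
    rw [hG0, Complex.norm_real, Real.norm_eq_abs, abs_of_nonneg (by positivity)] at h2
    have hMr : (0 : ℝ) < M := by exact_mod_cast hM0
    have hLr : (0 : ℝ) < L := by exact_mod_cast hL0
    have h5 : 0 < (M : ℝ) ^ 3 * (L : ℝ) ^ (2 * R.card) := by positivity
    nlinarith
  -- extraction
  have hdvdN : ∀ p ∈ R, 0 < p ∧ p ∣ N := fun p hp => ⟨(hR p hp).pos, dvd_prod_of_mem _ hp⟩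
  have r1 := rep_const N (m₀ : ℤ)
  have r2 := rep_range N M
  have r3 := rep_prod N L R t hdvdN hNpos
  have r22 := r2.mul (r2.mul r2 (Z := {x | ∃ m : ℕ, m ≤ 2 * M ∧ x = m}) (by
    rintro x ⟨m, hm, rfl⟩ y ⟨m', hm', rfl⟩
    exact ⟨m + m', by omega, by push_cast; ring⟩)) (Z := {x | ∃ m : ℕ, m ≤ 3 * M ∧ x = m}) (by
    rintro x ⟨m, hm, rfl⟩ y ⟨m', hm', rfl⟩
    exact ⟨m + m', by omega, by push_cast; ring⟩)
  have r33 := r3.mul r3 (Z := {x | ∃ a : ℕ → ℕ, (∀ p ∈ R, a p ≤ 2 * (L - 1)) ∧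
      x = ∑ p ∈ R, t p * a p * (N / p : ℕ)}) (by
    rintro x ⟨a, ha, rfl⟩ y ⟨a', ha', rfl⟩
    refine ⟨fun p => a p + a' p, ?_, ?_⟩
    · intro p hp
      have := ha p hp
      have := ha' p hp
      simp only
      omega
    · rw [← sum_add_distrib]
      refine sum_congr rfl fun p _ => ?_
      simp only [Nat.cast_add]
      ring)
  have r4 := (r1.mul r22 (Z := {x | ∃ m : ℕ, m₀ ≤ m ∧ m ≤ m₀ + 3 * M ∧ x = m}) (by
    rintro x rfl y ⟨m', hm', rfl⟩
    exact ⟨m₀ + m', by omega, by omega, by push_cast; ring⟩)).mul r33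
    (Z := {x | ∃ (m : ℕ) (a : ℕ → ℕ), m₀ ≤ m ∧ m ≤ m₀ + 3 * M ∧ (∀ p ∈ R, a p ≤ 2 * (L - 1)) ∧
      x = m + ∑ p ∈ R, t p * a p * (N / p : ℕ)}) (by
    rintro x ⟨m, hm, hm', rfl⟩ y ⟨a, ha, rfl⟩
    exact ⟨m, a, hm, hm', ha, rfl⟩)
  obtain ⟨x, ⟨m, a, hm1, hm2, ha, rfl⟩, hdvd⟩ := r4.exists_dvd hNpos (by
    have : ∑ b ∈ range N, G b ≠ 0 := hne
    exact this)
  refine ⟨m, hm1, hm2, ?_⟩
  intro p hp
  refine ⟨a p, ha p hp, ?_⟩
  have hpN : (p : ℤ) ∣ (N : ℤ) := by exact_mod_cast (hdvdN p hp).2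
  have h1 := hpN.trans hdvd
  rw [← add_sum_erase R _ hp] at h1
  have h2 : (p : ℤ) ∣ ∑ q ∈ R.erase p, t q * a q * (N / q : ℕ) := by
    refine dvd_sum fun q hq => ?_
    have hqR := mem_of_mem_erase hq
    have hqp : q ≠ p := ne_of_mem_erase hq
    rw [hNdiv q hqR]
    have : p ∣ ∏ r ∈ R.erase q, r := dvd_prod_of_mem _ (mem_erase.mpr ⟨hqp.symm, hp⟩)
    exact Dvd.dvd.mul_left (by exact_mod_cast this) _
  have h3 : (p : ℤ) ∣ (m : ℤ) + t p * a p * (N / p : ℕ) := by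
    have : (m : ℤ) + (t p * a p * (N / p : ℕ) + ∑ q ∈ R.erase p, t q * a q * (N / q : ℕ))
        = ((m : ℤ) + t p * a p * (N / p : ℕ)) + ∑ q ∈ R.erase p, t q * a q * (N / q : ℕ) := by
      ring
    rw [this] at h1
    exact (dvd_add_left h2).mp h1
  have h4 : (p : ℤ) ∣ (Q : ℤ) * ((m : ℤ) + t p * a p * (N / p : ℕ)) := Dvd.dvd.mul_left h3 _
  have h5 := (ht p hp).dvd
  have h6 : ((m * Q + a p : ℕ) : ℤ) = (Q : ℤ) * ((m : ℤ) + t p * a p * (N / p : ℕ))
      + (1 - ((Q * (N / p) : ℕ) : ℤ) * t p) * a p := by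
    simp only [Nat.cast_add, Nat.cast_mul]
    ring
  have h7 : (p : ℤ) ∣ ((m * Q + a p : ℕ) : ℤ) := by
    rw [h6]
    exact dvd_add h4 (Dvd.dvd.mul_right h5 _)
  exact_mod_cast h7

end main

end Pool.Agent.H32.Nk
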