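import Mathlib

/-!
Elementary bounds for primes in `(k, 2k)` and in `(k, 1.1 k]`.
-/

namespace Pool.Agent.H32.Nk

open Finset Nat

/-- The primes strictly between `k` and `2k`. -/
def PP (k : ℕ) : Finset ℕ := (Finset.Ioo k (2 * k)).filter Nat.Prime

lemma mem_PP {k p : ℕ} : p ∈ PP k ↔ (k < p ∧ p < 2 * k) ∧ p.Prime := by
  unfold PP
  rw [mem_filter, mem_Ioo]

lemma PP_dvd_centralBinom (k : ℕ) : ∏ p ∈ PP k, p ∣ centralBinom k := by
  apply Finset.prod_primes_dvd
  · intro p hp
    exact (mem_PP.mp hp).2.prime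
  · intro p hp
    obtain ⟨⟨h1, h2⟩, hpp⟩ := mem_PP.mp hp
    rw [centralBinom_eq_two_mul_choose]
    exact hpp.dvd_choose h1 (by omega) h2.le

lemma prod_PP_le (k : ℕ) : ∏ p ∈ PP k, p ≤ 4 ^ k :=
  (Nat.le_of_dvd (centralBinom_pos k) (PP_dvd_centralBinom k)).trans (centralBinom_le_four_pow k)

lemma centralBinom_le_mul_PP (n : ℕ) (hn : 2 < n) :
    centralBinom n ≤ (2 * n) ^ sqrt (2 * n) * 4 ^ (2 * n / 3) * ∏ p ∈ PP n, p := by
  have n2_pos : 1 ≤ 2 * n := by omega
  let f : ℕ → ℕ := fun x => x ^ n.centralBinom.factorization x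
  have hf1 : ∀ p, 1 ≤ f p := by
    intro p
    rcases Nat.eq_zero_or_pos p with h | h
    · simp only [f, h]
      rw [factorization_eq_zero_of_not_prime _ Nat.not_prime_zero, pow_zero]
    · exact Nat.one_le_pow _ _ h
  have h0 : ∏ p ∈ range (2 * n + 1), f p = centralBinom n := n.prod_pow_factorization_centralBinom
  let S := {p ∈ Finset.range (2 * n / 3 + 1) | Nat.Prime p}
  have hsub : ∏ p ∈ range (2 * n + 1), f p ≤ (∏ p ∈ S, f p) * ∏ p ∈ PP n, f p := by
    have hdisj : Disjoint S (PP n) := by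
      rw [Finset.disjoint_left]
      intro p hp hp'
      have h1 := mem_range.mp (mem_filter.mp hp).1
      have h2 := (mem_PP.mp hp').1.1
      omega
    rw [← prod_union hdisj]
    apply le_of_eq
    symm
    apply prod_subset
    · intro p hp
      rw [mem_union] at hp
      rw [mem_range]
      rcases hp with hp | hp
      · have h1 := mem_range.mp (mem_filter.mp hp).1
        omega
      · have h2 := (mem_PP.mp hp).1.2
        omega
    · intro p hp hp'
      rw [mem_union, not_or] at hp'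
      simp only [f]
      by_cases hpp : p.Prime
      · have h1 : ¬ p < 2 * n / 3 + 1 := fun h => hp'.1 (mem_filter.mpr ⟨mem_range.mpr h, hpp⟩)
        have h2 : ¬ (n < p ∧ p < 2 * n) := fun h => hp'.2 (mem_PP.mpr ⟨h, hpp⟩)
        rw [mem_range] at hp
        have h3 : p ≠ 2 * n := by
          intro h
          rw [h] at hpp
          have := (Nat.prime_mul_iff.mp hpp)
          rcases this with ⟨_, h⟩ | ⟨_, h⟩ <;> omega
        have h4 : p ≤ n := by
          by_contra h
          apply h2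
          omega
        rw [factorization_centralBinom_of_two_mul_self_lt_three_mul hn h4 (by omega), pow_zero]
      · rw [factorization_eq_zero_of_not_prime _ hpp, pow_zero]
  rw [← h0]
  refine hsub.trans ?_
  apply mul_le_mul'
  · rw [← Finset.prod_filter_mul_prod_filter_not S (· ≤ sqrt (2 * n))]
    apply mul_le_mul'
    · refine (Finset.prod_le_prod' fun p _ => (?_ : f p ≤ 2 * n)).trans ?_
      · exact pow_factorization_choose_le (by omega)
      have : (Finset.Icc 1 (sqrt (2 * n))).card = sqrt (2 * n) := by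
        rw [card_Icc, Nat.add_sub_cancel]
      rw [Finset.prod_const]
      refine pow_right_mono₀ n2_pos ((Finset.card_le_card fun x hx => ?_).trans this.le)
      obtain ⟨h1, h2⟩ := Finset.mem_filter.1 hx
      exact Finset.mem_Icc.mpr ⟨(Finset.mem_filter.1 h1).2.one_lt.le, h2⟩
    · refine le_trans ?_ (primorial_le_four_pow (2 * n / 3))
      refine (Finset.prod_le_prod' fun p hp => (?_ : f p ≤ p)).trans ?_
      · obtain ⟨h1, h2⟩ := Finset.mem_filter.1 hp
        refine (pow_right_mono₀ (Finset.mem_filter.1 h1).2.one_lt.le ?_).trans (pow_one p).le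
        exact Nat.factorization_choose_le_one (sqrt_lt'.mp <| not_le.1 h2)
      refine Finset.prod_le_prod_of_subset_of_one_le' (Finset.filter_subset _ _) ?_
      exact fun p hp _ => (Finset.mem_filter.1 hp).2.one_lt.le
  · refine prod_le_prod' fun p hp => ?_
    obtain ⟨⟨h1, h2⟩, hpp⟩ := mem_PP.mp hp
    refine (pow_right_mono₀ hpp.one_lt.le ?_).trans (pow_one p).le
    exact Nat.factorization_choose_le_one (by nlinarith)

/-- the small primes of `PP k` -/
def PS (k : ℕ) : Finset ℕ := (PP k).filter (fun p => p ≤ k + k / 10)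

/-- the large primes of `PP k` -/
def PR (k : ℕ) : Finset ℕ := (PP k).filter (fun p => ¬ p ≤ k + k / 10)

lemma prod_PS_dvd (k : ℕ) : ∏ p ∈ PS k, p ∣ choose (k + k / 10) k := by
  apply Finset.prod_primes_dvd
  · intro p hp
    exact (mem_PP.mp (mem_filter.mp hp).1).2.prime
  · intro p hp
    obtain ⟨hp1, hp2⟩ := mem_filter.mp hp
    obtain ⟨⟨h1, h2⟩, hpp⟩ := mem_PP.mp hp1
    exact hpp.dvd_choose h1 (by omega) hp2

lemma pow_card_PS_le (k : ℕ) : k ^ (PS k).card ≤ choose (k + k / 10) k := by
  have h1 : ∏ p ∈ PS k, k ≤ ∏ p ∈ PS k, p :=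
    prod_le_prod' fun p hp => (mem_PP.mp (mem_filter.mp hp).1).1.1.le
  rw [prod_const] at h1
  exact h1.trans (Nat.le_of_dvd (Nat.choose_pos (by omega)) (prod_PS_dvd k))

lemma choose_le_real (n r : ℕ) (hr : r ≤ n) {x : ℝ} (hx : 0 < x) :
    (choose n r : ℝ) ≤ (x + 1) ^ n / x ^ (n - r) := by
  rw [le_div_iff₀ (by positivity), add_pow]
  have : (choose n r : ℝ) * x ^ (n - r) = x ^ (n - r) * 1 ^ (n - (n - r)) * (choose n (n - r)) := by
    rw [Nat.choose_symm hr]; ring
  rw [this]
  exact single_le_sum (f := fun m => x ^ m * 1 ^ (n - m) * (choose n m : ℝ))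
    (fun _ _ => by positivity) (mem_range.mpr (by omega))

lemma log_PS (k : ℕ) (hk : 1 ≤ k) :
    (PS k).card * Real.log k ≤ k * (3352 / 10000) := by
  have h1 := pow_card_PS_le k
  have h2 := choose_le_real (k + k / 10) k (by omega) (x := 1 / 10) (by norm_num)
  have h3 : (k : ℝ) ^ (PS k).card ≤ (11 / 10) ^ (k + k / 10) * 10 ^ (k / 10) := by
    have : (k : ℝ) ^ (PS k).card ≤ choose (k + k / 10) k := by exact_mod_cast h1
    refine this.trans (h2.trans (le_of_eq ?_))
    rw [Nat.add_sub_cancel_left]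
    have : (1 / 10 : ℝ) + 1 = 11 / 10 := by norm_num
    rw [this, one_div, inv_pow, div_inv_eq_mul]
  have hkpos : (0 : ℝ) < k := by exact_mod_cast hk
  have h4 := Real.log_le_log (by positivity) h3
  rw [Real.log_pow, Real.log_mul (by positivity) (by positivity), Real.log_pow, Real.log_pow] at h4
  have h5 : ((k / 10 : ℕ) : ℝ) ≤ k / 10 := Nat.cast_div_le
  have hl1 : Real.log (11 / 10) ≤ 0.0954 := by
    rw [Real.log_le_iff_le_exp (by norm_num)]
    have := Real.quadratic_le_exp_of_nonneg (x := 0.0954) (by norm_num)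
    have h6 : (11 / 10 : ℝ) ≤ Real.exp 0.0954 := by
      have h7 : Real.exp 0.0954 = Real.exp 0.0477 ^ 2 := by
        rw [← Real.exp_nat_mul]; norm_num
      have h8 := Real.quadratic_le_exp_of_nonneg (x := 0.0477) (by norm_num)
      rw [h7]
      calc (11 / 10 : ℝ) ≤ (1 + 0.0477 + 0.0477 ^ 2 / 2) ^ 2 := by norm_num
        _ ≤ _ := by gcongr
    exact h6
  have hl2 : Real.log 10 ≤ 2.3026 := by
    have h6 := Real.log_two_lt_d9
    -- log 10 = log 2 + log 5, bound through 10^? powers: 10 < 2^(3.3220)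
    have h7 : (10 : ℝ) ^ 28 ≤ 2 ^ 93 * (101 / 100) := by norm_num
    have h8 := Real.log_le_log (by positivity) h7
    rw [Real.log_mul (by positivity) (by positivity), Real.log_pow, Real.log_pow] at h8
    have h9 : Real.log (101 / 100) ≤ 101 / 100 - 1 := Real.log_le_sub_one_of_pos (by norm_num)
    push_cast at h8
    linarith
  have hl10 : 0 ≤ Real.log 10 := Real.log_nonneg (by norm_num)
  have hl11 : 0 ≤ Real.log (11 / 10) := Real.log_nonneg (by norm_num)
  push_cast at h4
  nlinarith

end Pool.Agent.H32.Nk
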