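import Pool.Agent.H32.Nk.Exp

/-!
The short geometric sums `SS p L v = ∑_{a < L} e(a v / p)`: Parseval and a uniform saving.
-/

namespace Pool.Agent.H32.Nk

open Finset Complex

/-- `SS p L v = ∑_{a < L} e(a v / p)` -/
noncomputable def SS (p L : ℕ) (v : ℤ) : ℂ := ∑ a ∈ range L, E (a * (v / p : ℝ))

lemma SS_add_mul (p L : ℕ) (hp : 0 < p) (v c : ℤ) : SS p L (v + p * c) = SS p L v := by
  unfold SS
  refine sum_congr rfl fun a _ => ?_
  have hp' : (p : ℝ) ≠ 0 := by positivity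
  have : (a : ℝ) * (((v + p * c : ℤ) : ℝ) / p) = a * (v / p : ℝ) + ((a * c : ℤ) : ℝ) := by
    push_cast
    field_simp
  rw [this, E_add_int]

lemma SS_periodic (p L : ℕ) (hp : 0 < p) (t : ℤ) (v : ℤ) :
    SS p L ((v + p) * t) = SS p L (v * t) := by
  have : (v + p) * t = v * t + p * t := by ring
  rw [this, SS_add_mul p L hp]

lemma norm_SS_neg (p L : ℕ) (v : ℤ) : ‖SS p L (-v)‖ = ‖SS p L v‖ := by
  have : SS p L (-v) = (starRingEnd ℂ) (SS p L v) := by
    unfold SS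
    rw [map_sum]
    refine sum_congr rfl fun a _ => ?_
    rw [← E_neg]
    congr 1
    push_cast
    ring
  rw [this, Complex.norm_conj]

lemma norm_SS_le (p L : ℕ) (v : ℤ) : ‖SS p L v‖ ≤ L := by
  unfold SS
  refine (norm_sum_le _ _).trans ?_
  simp [norm_E]

lemma SS_zero (p L : ℕ) : SS p L 0 = L := by
  unfold SS
  simp [E_zero]

/-- Parseval for a prime modulus. -/
lemma parseval {p L : ℕ} (hp : p.Prime) (hL : L ≤ p) {t : ℤ} (ht : ¬ (p : ℤ) ∣ t) :
    ∑ b ∈ range p, ‖SS p L (b * t)‖ ^ 2 = (p : ℝ) * L := by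
  have hp0 : 0 < p := hp.pos
  have hp' : (p : ℝ) ≠ 0 := by positivity
  have key : ((∑ b ∈ range p, ‖SS p L (b * t)‖ ^ 2 : ℝ) : ℂ) = (p : ℂ) * L := by
    push_cast
    have h1 : ∀ b ∈ range p, ((‖SS p L (b * t)‖ : ℂ)) ^ 2 =
        ∑ a ∈ range L, ∑ a' ∈ range L, E (b * ((((a : ℤ) - a') * t : ℤ) / p : ℝ)) := by
      intro b _
      rw [← Complex.mul_conj']
      unfold SS
      rw [map_sum, sum_mul_sum]
      refine sum_congr rfl fun a _ => sum_congr rfl fun a' _ => ?_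
      rw [← E_neg, ← E_add]
      congr 1
      push_cast
      ring
    rw [sum_congr rfl h1, sum_comm]
    have h2 : ∀ a ∈ range L, ∑ b ∈ range p, ∑ a' ∈ range L,
        E (b * ((((a : ℤ) - a') * t : ℤ) / p : ℝ)) = p := by
      intro a ha
      rw [sum_comm]
      rw [sum_eq_single a]
      · simp [E_zero]
      · intro a' ha' hne
        apply sum_complete hp0
        intro hdvd
        have hpI : Prime (p : ℤ) := Nat.prime_iff_prime_int.mp hp
        rcases hpI.dvd_or_dvd hdvd with h | h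
        · rw [mem_range] at ha ha'
          have h3 : ((a : ℤ) - a') = 0 := by
            apply Int.eq_zero_of_abs_lt_dvd h
            rw [abs_lt]
            constructor <;> omega
          omega
        · exact ht h
      · intro h
        exact absurd ha h
    rw [sum_congr rfl h2]
    simp
    ring
  exact_mod_cast key

/-- the distance of `v/p` to the nearest integer -/
lemma exists_dist {p : ℕ} (hp : 0 < p) {v : ℤ} (hv : ¬ (p : ℤ) ∣ v) :
    ∃ x : ℝ, 1 / p ≤ x ∧ x ≤ 1 / 2 ∧ ∀ q : ℕ, ‖E (q * (v / p : ℝ)) - 1‖ = ‖E (q * x) - 1‖ := by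
  have hp' : (p : ℝ) ≠ 0 := by positivity
  have hppos : (0 : ℝ) < p := by positivity
  set r := v % (p : ℤ) with hr
  have hr0 : 0 ≤ r := Int.emod_nonneg _ (by omega)
  have hrp : r < p := Int.emod_lt_of_pos _ (by omega)
  have hrne : r ≠ 0 := fun h => hv (Int.dvd_of_emod_eq_zero h)
  have hv' : (v : ℝ) / p = r / p + ((v / (p : ℤ) : ℤ) : ℝ) := by
    have : (v : ℝ) = r + p * ((v / (p : ℤ) : ℤ) : ℝ) := by
      have := Int.emod_add_mul_ediv v (p : ℤ)
      rw [← hr] at this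
      exact_mod_cast this.symm
    rw [this]
    field_simp
  have hq : ∀ q : ℕ, E (q * (v / p : ℝ)) = E (q * (r / p : ℝ)) := by
    intro q
    rw [hv']
    have : (q : ℝ) * (r / p + ((v / (p : ℤ) : ℤ) : ℝ))
        = q * (r / p : ℝ) + (((q : ℤ) * (v / (p : ℤ)) : ℤ) : ℝ) := by
      push_cast; ring
    rw [this, E_add_int]
  by_cases h : 2 * r ≤ p
  · refine ⟨r / p, ?_, ?_, ?_⟩
    · have : (1 : ℝ) ≤ r := by
        have : 1 ≤ r := by omega
        exact_mod_cast this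
      gcongr
    · rw [div_le_div_iff₀ hppos (by norm_num)]
      have : (2 * r : ℝ) ≤ p := by exact_mod_cast h
      linarith
    · intro q
      rw [hq]
  · push Not at h
    refine ⟨(p - r) / p, ?_, ?_, ?_⟩
    · have : (1 : ℝ) ≤ p - r := by
        have : 1 ≤ (p : ℤ) - r := by omega
        have h2 : ((1 : ℤ) : ℝ) ≤ (((p : ℤ) - r : ℤ) : ℝ) := by exact_mod_cast this
        push_cast at h2
        exact h2
      gcongr
    · rw [div_le_div_iff₀ hppos (by norm_num)]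
      have : (p : ℝ) < 2 * r := by exact_mod_cast h
      linarith
    · intro q
      rw [hq]
      have h1 : (q : ℝ) * ((p - r) / p) = -(q * (r / p : ℝ)) + (q : ℤ) := by
        push_cast
        field_simp
        ring
      rw [h1, E_add_int, E_neg]
      have h2 : (starRingEnd ℂ) (E (q * (r / p : ℝ))) - 1
          = (starRingEnd ℂ) (E (q * (r / p : ℝ)) - 1) := by
        rw [map_sub, map_one]
      rw [h2, Complex.norm_conj]

lemma exists_q {x x0 : ℝ} (hx0 : 0 < x0) (hx1 : x0 ≤ x) (hx : x ≤ 1 / 2) {m : ℕ} (hm : 1 ≤ m) :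
    ∃ q : ℕ, 1 ≤ q ∧ q ≤ m ∧ 4 * min (m * x0) (1 / 4) ≤ ‖E (q * x) - 1‖ := by
  have hxpos : 0 < x := lt_of_lt_of_le hx0 hx1
  by_cases h1 : 1 / 4 ≤ x
  · refine ⟨1, le_rfl, hm, ?_⟩
    have h2 := norm_E_sub_one_ge (x := ((1 : ℕ) : ℝ) * x) (by
      rw [Nat.cast_one, one_mul, abs_of_pos hxpos]; exact hx)
    rw [Nat.cast_one, one_mul, abs_of_pos hxpos] at h2
    rw [Nat.cast_one, one_mul]
    have := min_le_right (m * x0) (1 / 4 : ℝ)
    linarith
  · push Not at h1
    by_cases h2 : m * x ≤ 1 / 2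
    · refine ⟨m, hm, le_rfl, ?_⟩
      have h3 := norm_E_sub_one_ge (x := (m : ℝ) * x) (by
        rw [abs_of_nonneg (by positivity)]; exact h2)
      rw [abs_of_nonneg (by positivity)] at h3
      have h4 := min_le_left (m * x0) (1 / 4 : ℝ)
      have h5 : (m : ℝ) * x0 ≤ m * x := by gcongr
      linarith
    · push Not at h2
      set q := ⌈1 / (4 * x)⌉₊ with hq
      have hq1 : 1 / (4 * x) ≤ q := Nat.le_ceil _
      have hq2 : (q : ℝ) < 1 / (4 * x) + 1 := Nat.ceil_lt_add_one (by positivity)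
      have hqx1 : 1 / 4 ≤ q * x := by
        have : 1 / (4 * x) * x = 1 / 4 := by field_simp
        nlinarith
      have hqx2 : q * x ≤ 1 / 2 := by
        have : 1 / (4 * x) * x = 1 / 4 := by field_simp
        nlinarith
      refine ⟨q, ?_, ?_, ?_⟩
      · rw [Nat.one_le_iff_ne_zero]
        intro h
        rw [h] at hqx1
        norm_num at hqx1
      · have h3 : (q : ℝ) ≤ m := by
          have h4 : 1 / (4 * x) * x = 1 / 4 := by field_simp
          have h5 : (q : ℝ) * x < m * x := by nlinarith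
          exact (lt_of_mul_lt_mul_right h5 hxpos.le).le
        exact_mod_cast h3
      · have h3 := norm_E_sub_one_ge (x := (q : ℝ) * x) (by
          rw [abs_of_nonneg (by positivity)]; exact hqx2)
        rw [abs_of_nonneg (by positivity)] at h3
        have := min_le_right (m * x0) (1 / 4 : ℝ)
        linarith

/-- the uniform saving -/
lemma norm_SS_saving {p L : ℕ} (hp : 0 < p) {v : ℤ} (hv : ¬ (p : ℤ) ∣ v) (hL : 4 ≤ L) {c : ℝ}
    (hc0 : 0 ≤ c) (hc1 : c ≤ 1 / 4) (hc2 : c * p ≤ (L / 4 : ℕ)) :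
    ‖SS p L v‖ ≤ L * (1 - 3 / 2 * c ^ 2) := by
  have hppos : (0 : ℝ) < p := by positivity
  obtain ⟨x, hx1, hx2, hx3⟩ := exists_dist hp hv
  obtain ⟨q, hq1, hqm, hq⟩ := exists_q (x0 := 1 / p) (by positivity) hx1 hx2
    (m := L / 4) (by omega)
  have hcq : 4 * c ≤ ‖E (q * (v / p : ℝ)) - 1‖ := by
    rw [hx3]
    refine le_trans ?_ hq
    have h1 : c ≤ ((L / 4 : ℕ) : ℝ) * (1 / p) := by
      rw [mul_one_div, le_div_iff₀ hppos]; exact hc2
    have := le_min h1 hc1
    linarith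
  by_cases hS : SS p L v = 0
  · rw [hS, norm_zero]
    have : c ^ 2 ≤ 1 / 16 := by nlinarith
    have hL0 : (0 : ℝ) ≤ L := by positivity
    nlinarith
  set S := SS p L v with hSdef
  set z : ℕ → ℂ := fun a => E (a * (v / p : ℝ)) with hz
  have hSz : S = ∑ a ∈ range L, z a := rfl
  have hSn : 0 < ‖S‖ := norm_pos_iff.mpr hS
  set w : ℂ := ((‖S‖⁻¹ : ℝ) : ℂ) * S with hw
  have hwn : ‖w‖ = 1 := by
    rw [hw, norm_mul, Complex.norm_real, Real.norm_eq_abs, abs_of_pos (by positivity)]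
    field_simp
  have hzn : ∀ a, ‖z a‖ = 1 := fun a => norm_E _
  have hinner : ∑ a ∈ range L, inner ℝ w (z a) = ‖S‖ := by
    rw [← inner_sum, ← hSz]
    have : w = (‖S‖⁻¹ : ℝ) • S := by rw [hw, Complex.real_smul]
    rw [this, real_inner_smul_left, real_inner_self_eq_norm_sq]
    field_simp
  have hsum : ∑ a ∈ range L, ‖w - z a‖ ^ 2 = 2 * L - 2 * ‖S‖ := by
    have : ∀ a ∈ range L, ‖w - z a‖ ^ 2 = 2 - 2 * inner ℝ w (z a) := by
      intro a _
      rw [norm_sub_sq_real, hwn, hzn]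
      ring
    rw [sum_congr rfl this, sum_sub_distrib, ← mul_sum, hinner]
    simp
    ring
  have hqL : q ≤ L := hqm.trans (Nat.div_le_self _ _)
  have hl1 : ∑ a ∈ range (L - q), ‖w - z a‖ ^ 2 ≤ ∑ a ∈ range L, ‖w - z a‖ ^ 2 :=
    sum_le_sum_of_subset_of_nonneg (range_subset_range.mpr (Nat.sub_le _ _))
      fun _ _ _ => by positivity
  have hl2 : ∑ a ∈ range (L - q), ‖w - z (q + a)‖ ^ 2 ≤ ∑ a ∈ range L, ‖w - z a‖ ^ 2 := by
    have h1 : ∑ a ∈ range L, ‖w - z a‖ ^ 2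
        = ∑ a ∈ range q, ‖w - z a‖ ^ 2 + ∑ a ∈ range (L - q), ‖w - z (q + a)‖ ^ 2 := by
      rw [← sum_range_add, Nat.add_sub_cancel' hqL]
    rw [h1]
    have : 0 ≤ ∑ a ∈ range q, ‖w - z a‖ ^ 2 := sum_nonneg fun _ _ => by positivity
    linarith
  have hpt : ∀ a ∈ range (L - q), 8 * c ^ 2 ≤ ‖w - z a‖ ^ 2 + ‖w - z (q + a)‖ ^ 2 := by
    intro a _
    have h1 : ‖z a - z (q + a)‖ = ‖E (q * (v / p : ℝ)) - 1‖ := by
      have : z (q + a) = z a * E (q * (v / p : ℝ)) := by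
        simp only [hz]
        rw [← E_add]
        congr 1
        push_cast
        ring
      rw [this]
      have h2 : z a - z a * E (q * (v / p : ℝ)) = -(z a * (E (q * (v / p : ℝ)) - 1)) := by ring
      rw [h2, norm_neg, norm_mul, hzn, one_mul]
    have h2 : ‖z a - z (q + a)‖ ≤ ‖w - z a‖ + ‖w - z (q + a)‖ := by
      have : z a - z (q + a) = (w - z (q + a)) - (w - z a) := by ring
      rw [this]
      refine (norm_sub_le _ _).trans ?_
      linarith
    have h3 : 4 * c ≤ ‖w - z a‖ + ‖w - z (q + a)‖ := by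
      rw [h1] at h2
      linarith
    nlinarith [sq_nonneg (‖w - z a‖ - ‖w - z (q + a)‖), norm_nonneg (w - z a),
      norm_nonneg (w - z (q + a))]
  have hs3 : ((L - q : ℕ) : ℝ) * (8 * c ^ 2)
      ≤ ∑ a ∈ range (L - q), (‖w - z a‖ ^ 2 + ‖w - z (q + a)‖ ^ 2) := by
    have := card_nsmul_le_sum (range (L - q)) _ (8 * c ^ 2) hpt
    rw [card_range, nsmul_eq_mul] at this
    exact this
  rw [sum_add_distrib] at hs3
  have hLq : (3 / 4 : ℝ) * L ≤ ((L - q : ℕ) : ℝ) := by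
    have h1 : 4 * q ≤ L := by omega
    have h2 : (4 * q : ℝ) ≤ L := by exact_mod_cast h1
    rw [Nat.cast_sub hqL]
    linarith
  have hfin : (3 / 4 : ℝ) * L * (8 * c ^ 2) ≤ 2 * (2 * L - 2 * ‖S‖) := by
    have h1 : (3 / 4 : ℝ) * L * (8 * c ^ 2) ≤ ((L - q : ℕ) : ℝ) * (8 * c ^ 2) := by
      gcongr
    rw [hsum] at hl1 hl2
    linarith
  nlinarith

end Pool.Agent.H32.Nk
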