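import Pool.Agent.H32.Nk.Main
import Pool.Agent.H32.Nk.Primes

/-!
Assembly of the upper bound.
-/

namespace Pool.Agent.H32.Nk

open Finset Filter Asymptotics

lemma log_PP_ge (k : ℕ) (hk : 4 ≤ k) :
    (k : ℝ) / 3 * Real.log 4 - Real.log k - Real.sqrt (2 * k) * Real.log (2 * k)
      ≤ Real.log (∏ p ∈ PP k, p : ℕ) := by
  have h1 := Nat.four_pow_lt_mul_centralBinom k hk
  have h2 := centralBinom_le_mul_PP k (by omega)
  have hPpos : 0 < ∏ p ∈ PP k, p := prod_pos fun p hp => (mem_PP.mp hp).2.pos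
  have h3 : 4 ^ k ≤ k * ((2 * k) ^ Nat.sqrt (2 * k) * 4 ^ (2 * k / 3) * ∏ p ∈ PP k, p) :=
    h1.le.trans (Nat.mul_le_mul_left _ h2)
  have hkpos : (0 : ℝ) < k := by positivity
  have hPr : (0 : ℝ) < (∏ p ∈ PP k, p : ℕ) := by exact_mod_cast hPpos
  have h4 : (4 : ℝ) ^ k ≤ k * ((2 * k) ^ Nat.sqrt (2 * k) * 4 ^ (2 * k / 3) *
      (∏ p ∈ PP k, p : ℕ)) := by exact_mod_cast h3
  have h5 := Real.log_le_log (by positivity) h4
  rw [Real.log_pow, Real.log_mul (by positivity) (by positivity),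
    Real.log_mul (by positivity) (by positivity), Real.log_mul (by positivity) (by positivity),
    Real.log_pow, Real.log_pow] at h5
  have h6 : (Nat.sqrt (2 * k) : ℝ) ≤ Real.sqrt (2 * k) := by
    have := Real.nat_sqrt_le_real_sqrt (a := 2 * k)
    push_cast at this
    exact this
  have h7 : ((2 * k / 3 : ℕ) : ℝ) ≤ 2 * k / 3 := by
    have := Nat.cast_div_le (α := ℝ) (m := 2 * k) (n := 3)
    push_cast at this
    exact this
  have h8 : 0 ≤ Real.log 4 := Real.log_nonneg (by norm_num)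
  have h9 : 0 ≤ Real.log (2 * k) := by
    apply Real.log_nonneg
    have : (4 : ℝ) ≤ k := by exact_mod_cast hk
    linarith
  nlinarith

lemma log_PP_le (k : ℕ) :
    Real.log (∏ p ∈ PP k, p : ℕ) ≤ (PP k).card * Real.log (2 * k) := by
  have h1 : ∏ p ∈ PP k, p ≤ (2 * k) ^ (PP k).card := by
    rw [← prod_const]
    exact prod_le_prod' fun p hp => (mem_PP.mp hp).1.2.le
  have hPpos : 0 < ∏ p ∈ PP k, p := prod_pos fun p hp => (mem_PP.mp hp).2.pos
  have hPr : (0 : ℝ) < (∏ p ∈ PP k, p : ℕ) := by exact_mod_cast hPpos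
  have h2 : ((∏ p ∈ PP k, p : ℕ) : ℝ) ≤ (2 * k) ^ (PP k).card := by exact_mod_cast h1
  have := Real.log_le_log hPr h2
  rwa [Real.log_pow] at this

lemma card_PP_le (k : ℕ) (hk : 1 ≤ k) : (PP k).card * Real.log k ≤ k * Real.log 4 := by
  have h1 : k ^ (PP k).card ≤ 4 ^ k := by
    refine le_trans ?_ (prod_PP_le k)
    rw [← prod_const]
    exact prod_le_prod' fun p hp => (mem_PP.mp hp).1.1.le
  have hkpos : (0 : ℝ) < k := by exact_mod_cast hk
  have h2 : ((k : ℝ)) ^ (PP k).card ≤ 4 ^ k := by exact_mod_cast h1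
  have := Real.log_le_log (by positivity) h2
  rwa [Real.log_pow, Real.log_pow] at this

lemma card_split (k : ℕ) : (PS k).card + (PR k).card = (PP k).card :=
  card_filter_add_card_filter_not (s := PP k) (fun p => p ≤ k + k / 10)

/-- asymptotic facts -/
lemma eventually_small : ∀ᶠ k : ℕ in atTop, Real.log k + Real.sqrt (2 * k) * Real.log (2 * k)
    ≤ k / 100 ∧ 98 / 100 * Real.log (2 * k) ≤ Real.log k ∧ 400 ≤ k ∧
    (100000000 : ℝ) * Real.log k ≤ k := by
  have h1 : ∀ᶠ x : ℝ in atTop, Real.log x ≤ x / 200 := by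
    have := Real.isLittleO_log_id_atTop.bound (show (0 : ℝ) < 1 / 200 by norm_num)
    filter_upwards [this, eventually_ge_atTop 1] with x hx hx1
    rw [Real.norm_eq_abs, Real.norm_eq_abs, abs_of_nonneg (Real.log_nonneg hx1)] at hx
    simp only [id] at hx
    rw [abs_of_nonneg (by linarith)] at hx
    linarith
  have h1' : ∀ᶠ x : ℝ in atTop, 100000000 * Real.log x ≤ x := by
    have := Real.isLittleO_log_id_atTop.bound (show (0 : ℝ) < 1 / 100000000 by norm_num)
    filter_upwards [this, eventually_ge_atTop 1] with x hx hx1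
    rw [Real.norm_eq_abs, Real.norm_eq_abs, abs_of_nonneg (Real.log_nonneg hx1)] at hx
    simp only [id] at hx
    rw [abs_of_nonneg (by linarith)] at hx
    linarith
  have h2 : ∀ᶠ x : ℝ in atTop, Real.sqrt x * Real.log x ≤ x / 400 := by
    have := (isLittleO_log_rpow_atTop (show (0 : ℝ) < 1 / 2 by norm_num)).bound
      (show (0 : ℝ) < 1 / 400 by norm_num)
    filter_upwards [this, eventually_ge_atTop 1] with x hx hx1
    rw [Real.norm_eq_abs, Real.norm_eq_abs, abs_of_nonneg (Real.log_nonneg hx1),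
      ← Real.sqrt_eq_rpow, abs_of_nonneg (Real.sqrt_nonneg _)] at hx
    have h3 : Real.sqrt x * Real.sqrt x = x := Real.mul_self_sqrt (by linarith)
    nlinarith [Real.sqrt_nonneg x]
  have h3 : ∀ᶠ x : ℝ in atTop, 50 * Real.log 2 ≤ Real.log x :=
    Real.tendsto_log_atTop.eventually_ge_atTop _
  have h2' : ∀ᶠ x : ℝ in atTop, Real.sqrt (2 * x) * Real.log (2 * x) ≤ (2 * x) / 400 :=
    (tendsto_id.const_mul_atTop (show (0 : ℝ) < 2 by norm_num)).eventually h2
  have := tendsto_natCast_atTop_atTop (R := ℝ)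
  filter_upwards [this.eventually h1, this.eventually h2', this.eventually h3,
    this.eventually h1', eventually_ge_atTop 400] with k hk1 hk2 hk3 hk4 hk5
  have hkpos : (0 : ℝ) < k := by
    have : (400 : ℝ) ≤ k := by exact_mod_cast hk5
    linarith
  refine ⟨by linarith, ?_, hk5, hk4⟩
  rw [Real.log_mul (by norm_num) hkpos.ne']
  have := Real.log_pos (show (1:ℝ) < 2 by norm_num)
  linarith

lemma eventually_card : ∀ᶠ k : ℕ in atTop, 400 ≤ k ∧ (k : ℝ) / 10 ≤ (PR k).card * Real.log k ∧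
    ((PP k).card : ℝ) ≤ 14 * (PR k).card ∧ (10000000 : ℝ) ≤ (PR k).card ∧
    Real.log (2 * k) ≤ 2 * Real.log k := by
  filter_upwards [eventually_small] with k hk
  obtain ⟨h1, h2, h3, h4⟩ := hk
  have h5 := log_PP_ge k (by omega)
  have h6 := log_PP_le k
  have h7 := card_PP_le k (by omega)
  have h8 := log_PS k (by omega)
  have h9 : ((PS k).card : ℝ) + (PR k).card = (PP k).card := by exact_mod_cast card_split k
  have hl4 : Real.log 4 = 2 * Real.log 2 := by
    rw [show (4 : ℝ) = 2 ^ 2 by norm_num, Real.log_pow]; norm_num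
  have hl2a := Real.log_two_gt_d9
  have hl2b := Real.log_two_lt_d9
  have hk400 : (400 : ℝ) ≤ k := by exact_mod_cast h3
  have hkpos : (0 : ℝ) < k := by linarith
  have hlogk : 0 < Real.log k := Real.log_pos (by linarith)
  have hcard0 : (0 : ℝ) ≤ (PP k).card := by positivity
  have h10 : (k : ℝ) * (452 / 1000) ≤ (PP k).card * Real.log (2 * k) := by
    rw [hl4] at h5
    nlinarith
  have h11 : (k : ℝ) * (4429 / 10000) ≤ (PP k).card * Real.log k := by
    have : (PP k).card * (98 / 100 * Real.log (2 * k)) ≤ (PP k).card * Real.log k := by gcongr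
    nlinarith
  have h12 : (k : ℝ) / 10 ≤ (PR k).card * Real.log k := by
    have : ((PR k).card : ℝ) * Real.log k = (PP k).card * Real.log k - (PS k).card * Real.log k := by
      rw [← h9]; ring
    rw [this]
    linarith
  refine ⟨h3, h12, ?_, ?_, ?_⟩
  · have h13 : ((PP k).card : ℝ) * Real.log k ≤ 14 * (PR k).card * Real.log k := by
      rw [hl4] at h7
      nlinarith
    exact le_of_mul_le_mul_right h13 hlogk
  · have h13 : (10000000 : ℝ) * Real.log k ≤ (PR k).card * Real.log k := by linarith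
    exact le_of_mul_le_mul_right h13 hlogk
  · linarith

lemma kap_pow_bound : (40 : ℝ) * kap ^ 199997 ≤ 1 / 10 := by
  have h1 : kap ≤ Real.exp (-(1 / 30000)) := by
    have := Real.add_one_le_exp (-(1 / 30000 : ℝ))
    unfold kap
    linarith
  have h2 : kap ^ 199997 ≤ Real.exp (-(1 / 30000)) ^ 199997 := by
    have := kap_pos
    gcongr
  rw [← Real.exp_nat_mul] at h2
  have h3 : ((199997 : ℕ) : ℝ) * (-(1 / 30000)) ≤ -6 := by norm_num
  have h4 : Real.exp (((199997 : ℕ) : ℝ) * (-(1 / 30000))) ≤ Real.exp (-6) :=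
    Real.exp_le_exp.mpr h3
  have h5 : Real.exp (-6) ≤ 1 / 400 := by
    rw [Real.exp_neg, one_div]
    apply inv_anti₀ (by norm_num)
    have h6 : Real.exp 6 = Real.exp 1 ^ 6 := by rw [← Real.exp_nat_mul]; norm_num
    rw [h6]
    have h7 := Real.exp_one_gt_d9
    calc (400 : ℝ) ≤ 2.7182818283 ^ 6 := by norm_num
      _ ≤ Real.exp 1 ^ 6 := by gcongr
  linarith

lemma bound_lt_one {r τ : ℕ} (hτ : 1 ≤ τ) (hr : 200000 * τ ≤ r) :
    3 * ((40 : ℝ) ^ τ * kap ^ (r - 3 * τ)) < 1 := by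
  have h0 := kap_pos
  have h1 : kap ^ (r - 3 * τ) ≤ kap ^ (199997 * τ) :=
    pow_le_pow_of_le_one h0.le kap_le_one (by omega)
  have h2 : (40 : ℝ) ^ τ * kap ^ (199997 * τ) = (40 * kap ^ 199997) ^ τ := by
    rw [mul_pow, ← pow_mul]
  have h3 : (40 * kap ^ 199997) ^ τ ≤ (1 / 10 : ℝ) ^ τ := by
    have := kap_pow_bound
    gcongr
  have h4 : (1 / 10 : ℝ) ^ τ ≤ (1 / 10) ^ 1 := pow_le_pow_of_le_one (by norm_num) (by norm_num) hτ
  have h5 : (40 : ℝ) ^ τ * kap ^ (r - 3 * τ) ≤ 40 ^ τ * kap ^ (199997 * τ) := by gcongr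
  rw [h2] at h5
  linarith

/-- `n` is admissible for `k`: `n ≥ 2k` and no prime in `(k,2k)` divides
`(n-1)(n-2)...(n-k)`. -/
def Adm (k n : ℕ) : Prop :=
  2 * k ≤ n ∧ ∀ p : ℕ, p.Prime → k < p → p < 2 * k → ¬ p ∣ ∏ i ∈ Finset.Icc 1 k, (n - i)

/-- Main construction. -/
theorem exists_adm {k : ℕ} (hk : 400 ≤ k) {T : Finset ℕ} (hT : T ⊆ PR k) (hTc : 1 ≤ T.card)
    (hTr : 200000 * T.card ≤ (PR k).card) :
    ∃ n : ℕ, Adm k n ∧ n * ∏ p ∈ T, p ≤ 4 * ∏ p ∈ PP k, p := by
  classical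
  have hR : ∀ p ∈ PR k, p.Prime := fun p hp => (mem_PP.mp (mem_filter.mp hp).1).2
  have hRk : ∀ p ∈ PR k, k < p ∧ p < 2 * k := fun p hp => (mem_PP.mp (mem_filter.mp hp).1).1
  have hRk' : ∀ p ∈ PR k, k + k / 10 < p := fun p hp => not_le.mp (mem_filter.mp hp).2
  have hS : ∀ p ∈ PS k, p.Prime := fun p hp => (mem_PP.mp (mem_filter.mp hp).1).2
  set L := k / 10 / 2 + 1 with hL
  set M := ∏ p ∈ PR k \ T, p with hM
  set Q := ∏ p ∈ PS k, p with hQ
  have hMW : M * ∏ p ∈ T, p = ∏ p ∈ PR k, p := prod_sdiff hT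
  have hMpos : 0 < M := prod_pos fun p hp => (hR p (mem_sdiff.mp hp).1).pos
  have hQpos : 0 < Q := prod_pos fun p hp => (hS p hp).pos
  have hQR : ∀ p ∈ PR k, ¬ p ∣ Q := by
    intro p hp h
    obtain ⟨q, hq, hpq⟩ := ((hR p hp).prime.dvd_finsetProd_iff _).mp h
    have := (Nat.prime_dvd_prime_iff_eq (hR p hp) (hS q hq)).mp hpq
    have h1 := (mem_filter.mp hq).2
    have h2 := hRk' p hp
    omega
  obtain ⟨m, hm1, hm2, hm⟩ := exists_m (k := k) (L := L) (M := M) hT hR hRk hk (by omega)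
    (fun p hp => by have := hRk p hp; omega) hMpos hMW.ge (by omega)
    (bound_lt_one hTc hTr) Q hQR (2 * k)
  refine ⟨m * Q, ⟨?_, ?_⟩, ?_⟩
  · calc 2 * k ≤ m := hm1
      _ ≤ m * Q := Nat.le_mul_of_pos_right _ hQpos
  · intro p hp hp1 hp2 hdvd
    obtain ⟨i, hi, hpi⟩ := (hp.prime.dvd_finsetProd_iff _).mp hdvd
    rw [mem_Icc] at hi
    have hn : 2 * k ≤ m * Q := hm1.trans (Nat.le_mul_of_pos_right _ hQpos)
    by_cases hps : p ∈ PS k
    · -- `p` divides `n`
      have h1 : p ∣ m * Q := Dvd.dvd.mul_left (dvd_prod_of_mem _ hps) _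
      have h2 : p ∣ i := by
        have h3 : i = m * Q - (m * Q - i) := by omega
        rw [h3]
        exact Nat.dvd_sub h1 hpi
      have := Nat.le_of_dvd (by omega) h2
      omega
    · have hpr : p ∈ PR k := by
        have hpp : p ∈ PP k := mem_PP.mpr ⟨⟨hp1, hp2⟩, hp⟩
        refine mem_filter.mpr ⟨hpp, ?_⟩
        intro h
        exact hps (mem_filter.mpr ⟨hpp, h⟩)
      obtain ⟨j, hj, hpj⟩ := hm p hpr
      have h1 := hRk' p hpr
      have h2 : p ∣ i + j := by
        have h3 : i + j = (m * Q + j) - (m * Q - i) := by omega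
        rw [h3]
        exact Nat.dvd_sub hpj hpi
      have := Nat.le_of_dvd (by omega) h2
      omega
  · -- size
    have hcard : 2 ≤ (PR k \ T).card := by
      rw [card_sdiff_of_subset hT]
      omega
    have hMk : 2 * k ≤ M := by
      have h1 : k ^ (PR k \ T).card ≤ M := by
        rw [← prod_const]
        exact prod_le_prod' fun p hp => (hRk p (mem_sdiff.mp hp).1).1.le
      have h2 : k ^ 2 ≤ k ^ (PR k \ T).card := Nat.pow_le_pow_right (by omega) hcard
      nlinarith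
    have h1 : m ≤ 4 * M := by omega
    have h2 : ∏ p ∈ PP k, p = Q * ∏ p ∈ PR k, p := by
      rw [hQ]
      exact (prod_filter_mul_prod_filter_not (PP k) (fun p => p ≤ k + k / 10) (fun p => p)).symm
    rw [h2, ← hMW]
    calc m * Q * ∏ p ∈ T, p ≤ (4 * M) * Q * ∏ p ∈ T, p := by gcongr
      _ = 4 * (Q * (M * ∏ p ∈ T, p)) := by ring

/-- The upper bound, with an explicit exponent. -/
theorem upper_bound : ∀ᶠ k : ℕ in atTop, ∃ n : ℕ, Adm k n ∧
    (n : ℝ) ≤ ((∏ p ∈ PP k, p : ℕ) : ℝ) ^ (1 - 1 / 10 ^ 7 : ℝ) := by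
  filter_upwards [eventually_card] with k hk
  obtain ⟨hk1, hk2, hk3, hk4, hk5⟩ := hk
  set r := (PR k).card with hr
  have hr1 : 10000000 ≤ r := by exact_mod_cast hk4
  obtain ⟨T, hT, hTc⟩ := exists_subset_card_eq (show r / 200000 ≤ (PR k).card by
    rw [← hr]; exact Nat.div_le_self _ _)
  obtain ⟨n, hn1, hn2⟩ := exists_adm (k := k) hk1 hT (by rw [hTc]; omega)
    (by rw [hTc, ← hr]; omega)
  refine ⟨n, hn1, ?_⟩
  set P := ∏ p ∈ PP k, p with hP
  have hPpos : 0 < P := prod_pos fun p hp => (mem_PP.mp hp).2.pos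
  have hPr : (0 : ℝ) < P := by exact_mod_cast hPpos
  have hkr : (400 : ℝ) ≤ k := by exact_mod_cast hk1
  have hkpos : (0 : ℝ) < k := by linarith
  have hlogk : 1 ≤ Real.log k := by
    rw [Real.le_log_iff_exp_le hkpos]
    have := Real.exp_one_lt_d9
    linarith
  have hW : (k : ℝ) ^ (r / 200000) ≤ (∏ p ∈ T, p : ℕ) := by
    have : k ^ (r / 200000) ≤ ∏ p ∈ T, p := by
      rw [← hTc, ← prod_const]
      exact prod_le_prod' fun p hp => (mem_PP.mp (mem_filter.mp (hT hp)).1).1.1.le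
    exact_mod_cast this
  have hn3 : (n : ℝ) * (∏ p ∈ T, p : ℕ) ≤ 4 * P := by exact_mod_cast hn2
  have hn4 : (n : ℝ) * (k : ℝ) ^ (r / 200000) ≤ 4 * P := by
    refine le_trans ?_ hn3
    gcongr
  have hnpos : (0 : ℝ) < n := by
    have := hn1.1
    have : 0 < n := by omega
    exact_mod_cast this
  -- take logs
  have h1 := Real.log_le_log (by positivity) hn4
  rw [Real.log_mul hnpos.ne' (by positivity), Real.log_pow, Real.log_mul (by norm_num) hPr.ne'] at h1
  have h2 : (r : ℝ) / 200000 - 1 ≤ ((r / 200000 : ℕ) : ℝ) := by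
    have h3 : r < 200000 * (r / 200000) + 200000 := by omega
    have h4 : (r : ℝ) < 200000 * ((r / 200000 : ℕ) : ℝ) + 200000 := by exact_mod_cast h3
    linarith
  have h3 := log_PP_le k
  rw [← hP] at h3
  have hl4 : Real.log 4 ≤ 2 := by
    rw [show (4 : ℝ) = 2 ^ 2 by norm_num, Real.log_pow]
    have := Real.log_two_lt_d9
    norm_num
    linarith
  have hlogP : Real.log P ≤ 28 * r * Real.log k := by
    calc Real.log P ≤ (PP k).card * Real.log (2 * k) := h3
      _ ≤ (14 * r) * (2 * Real.log k) := by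
          have h8 : 0 ≤ Real.log (2 * k) := Real.log_nonneg (by linarith)
          gcongr
      _ = _ := by ring
  have hfin : Real.log n ≤ (1 - 1 / 10 ^ 7 : ℝ) * Real.log P := by
    have h4 : ((r : ℝ) / 200000 - 1) * Real.log k ≤ ((r / 200000 : ℕ) : ℝ) * Real.log k := by gcongr
    nlinarith
  rw [← Real.log_rpow hPr] at hfin
  exact (Real.log_le_log_iff hnpos (by positivity)).mp hfin

end Pool.Agent.H32.Nk
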